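import Pool.Agent.H876.PL.Perf
import Pool.Graph.R_pool_sql_team_seeded_3997aac3.Q54.ZE.Lfun2
import Pool.Graph.R_pool_sql_team_seeded_3997aac3.Q27.BG.Main

/-!
# Schemes of finite type over the integers and their zeta functions
-/

set_option autoImplicit false

open CategoryTheory AlgebraicGeometry MvPolynomial Pool.Agent.Y116.UV Pool.Agent.Z125.UN
  Pool.Agent.Q193.LT

namespace Pool.Agent.H876.PL

/-- `B` is smooth over the integers or over the field with `p` elements for a prime number `p`. -/
def SmZ (B : Type) [CommRing B] [Algebra ℤ B] : Prop :=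
  Algebra.Smooth ℤ B ∨ ∃ (p : ℕ) (_ : Fact p.Prime) (_ : Algebra (ZMod p) B),
    Algebra.Smooth (ZMod p) B

theorem generic_int : Generic ℤ (fun B [CommRing B] [Algebra ℤ B] => SmZ B) where
  gen B _ _ inst _ := by
    obtain rfl : inst = Ring.toIntAlgebra B := Subsingleton.elim _ _
    obtain ⟨q, hq⟩ := CharP.exists B
    rcases CharP.char_is_prime_or_zero B q with h0 | rfl
    · have : Fact q.Prime := ⟨h0⟩
      let _ : Algebra (ZMod q) B := ZMod.algebra _ q
      have h1 : Algebra.FiniteType (ZMod q) B := by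
        have : IsScalarTower ℤ (ZMod q) B :=
          IsScalarTower.of_algebraMap_eq' (RingHom.ext_int _ _)
        exact Algebra.FiniteType.of_restrictScalars_finiteType ℤ (ZMod q) B
      obtain ⟨w, hw, hs⟩ := exists_smooth (k := ZMod q) B
      exact ⟨w, hw, Or.inr ⟨q, ‹_›, inferInstance, hs⟩⟩
    · have : CharZero B := CharP.charP_to_charZero _
      obtain ⟨w, hw, hs⟩ := Pool.Agent.Q27.BG.exists_smooth_int B
      exact ⟨w, hw, Or.inl hs⟩
  loc B _ _ w h := by
    rcases h with h | ⟨p, hp, hB, h⟩
    · exact Or.inl (smooth_away w h)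
    · exact Or.inr ⟨p, hp, inferInstance, smooth_away w h⟩
  iso B B' _ _ _ _ e h := by
    obtain ⟨e⟩ := e
    rcases h with h | ⟨p, hp, hB, h⟩
    · exact Or.inl (Algebra.Smooth.of_equiv e)
    · let _ : Algebra (ZMod p) B' := (e.toRingHom.comp (algebraMap (ZMod p) B)).toAlgebra
      let e' : B ≃ₐ[ZMod p] B' := AlgEquiv.ofRingEquiv (f := e.toRingEquiv) fun _ => rfl
      exact Or.inr ⟨p, hp, inferInstance, Algebra.Smooth.of_equiv e'⟩

open Q54.ZE

theorem hered_fib (n : ℕ) : Hered fun X : Sch ℤ => FibLE n (X := X.left) X.hom where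
  iso {X Y} e h := by
    obtain ⟨e⟩ := e
    have hi : IsIso e.inv.left := inferInstanceAs (IsIso ((Over.forget _).mapIso e).inv)
    have h1 : e.inv.left ≫ X.hom = Y.hom := Over.w e.inv
    rw [← h1]
    exact FibLE.comp_open h e.inv.left
  closed {Z X} i hi h := by
    have h1 : i.left ≫ X.hom = Z.hom := Over.w i
    rw [← h1]
    exact FibLE.comp_closed h i.left
  opened {U X} j hj h := by
    have h1 : j.left ≫ X.hom = U.hom := Over.w j
    rw [← h1]
    exact FibLE.comp_open h j.left

lemma frac_Z : Frac ℤ := frac_of_surj fun n => ⟨n, by simp⟩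

/-- The integers. -/
theorem conf_int {P Q : Sch ℤ → Prop} {sep : Prop} (hP : Glue sep P) (hQ : Hered Q)
    (h : ConfFam P Q (fun B [CommRing B] [Algebra ℤ B] => SmZ B) (![] : Fin 0 → ℤ))
    (h0 : ∀ (B : Type) [CommRing B] [Algebra ℤ B], Subsingleton B → P (aff ℤ B))
    (X : Sch ℤ) (hX : FT sep X) (hQX : Q X) : P X := by
  refine conf_generic hP hQ generic_int (presents_frac frac_Z) ?_ h0 X hX hQX
  intro B _ _ _ F hF
  refine ⟨0, ![], ?_, bpt_inj_zero B _, h⟩
  intro x hx
  rcases hF x hx with h1 | h1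
  · exact Or.inl h1
  · exact Or.inr (Or.inl h1)

/-- An immersion of schemes of finite type over the integers preserves closed points. -/
lemma pres_imm {C X : Sch ℤ} (hC : FT False C) (hX : FT False X) (g : C ⟶ X)
    (hg : IsImmersion g.left) : Pres g.left where
  inj := g.left.isEmbedding.injective
  closed x := by
    have h1 := card_residue g.left x
    constructor
    · intro h
      have h2 : Finite (C.left.residueField x) := finite_residue hC ⟨x, h⟩
      have h3 : 0 < Nat.card (C.left.residueField x) := Nat.card_pos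
      have h4 : Finite (X.left.residueField (g.left x)) :=
        Nat.finite_of_card_ne_zero (by omega)
      exact closed_of_finite hX _
    · intro h
      have h2 : Finite (X.left.residueField (g.left x)) := finite_residue hX ⟨_, h⟩
      have h3 : 0 < Nat.card (X.left.residueField (g.left x)) := Nat.card_pos
      have h4 : Finite (C.left.residueField x) :=
        Nat.finite_of_card_ne_zero (by omega)
      exact closed_of_finite hC _
  card x := card_residue g.left x

section

variable {X : Sch ℤ} (hX : FT False X) {ι : Type} {C : ι → Sch ℤ} (hC : ∀ i, FT False (C i))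
  (g : ∀ i, C i ⟶ X) (h2 : ∀ i, IsImmersion (g i).left)
  (h3 : ∀ x : X.left, ∃! i, x ∈ Set.range (g i).left)

include hX hC h2 h3

/-- The closed points. -/
theorem closed_points : ∃ e : (Σ i, CP (C i).left) ≃ CP X.left,
    ∀ x, nrm X.left (e x) = nrm (C x.1).left x.2 := by
  have hp : ∀ i, Pres (g i).left := fun i => pres_imm (hC i) hX (g i) (h2 i)
  let f : (Σ i, CP (C i).left) → CP X.left := fun x =>
    ⟨(g x.1).left x.2.1, ((hp x.1).closed x.2.1).1 x.2.2⟩
  have hf : Function.Bijective f := by
    constructor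
    · rintro ⟨i, x, hx⟩ ⟨j, y, hy⟩ hxy
      have h4 : (g i).left x = (g j).left y := congrArg (fun z => z.1) hxy
      have h5 : i = j := (h3 ((g i).left x)).unique ⟨x, rfl⟩ ⟨y, h4.symm⟩
      subst h5
      have h6 : x = y := (hp i).inj h4
      subst h6
      rfl
    · rintro ⟨x, hx⟩
      obtain ⟨i, ⟨y, rfl⟩, -⟩ := h3 x
      exact ⟨⟨i, y, ((hp i).closed y).2 hx⟩, rfl⟩
  exact ⟨Equiv.ofBijective f hf, fun x => ((hp x.1).card x.2.1).symm⟩

/-- The zeta function is the product of the zeta functions of the pieces. -/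
theorem zeta_prod [Fintype ι] : ∃ σ : ℝ, ∀ s : ℂ, σ < s.re →
    ∏' x : CP X.left, fac (nrm X.left) s x = ∏ i, ∏' x : CP (C i).left, fac (nrm (C i).left) s x := by
  obtain ⟨e, he⟩ := closed_points hX hC g h2 h3
  obtain ⟨σ, h⟩ := zgood X hX
  have hg : ∀ i, Q54.ZE.Good (nrm (C i).left) σ := fun i =>
    good_of_inj h (fun x => e ⟨i, x⟩) (fun x y hxy => by
      have h4 := e.injective hxy
      exact eq_of_heq (Sigma.mk.inj h4).2) fun x => he ⟨i, x⟩
  refine ⟨σ, fun s hs => ?_⟩
  rw [tprod_fac h hs.le]
  have h5 : ∀ i, ∏' x : CP (C i).left, fac (nrm (C i).left) s x =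
      Complex.exp (lg (nrm (C i).left) s) := fun i => tprod_fac (hg i) hs.le
  rw [Finset.prod_congr rfl fun i _ => h5 i, ← Complex.exp_sum]
  congr 1
  have h6 := (e.hasSum_iff).2 (hasSum_log h hs.le)
  have h7 : (fun j => Complex.log (fac (nrm X.left) s j)) ∘ e =
      fun x : (Σ i, CP (C i).left) => Complex.log (fac (nrm (C x.1).left) s x.2) := by
    funext x
    rw [Function.comp_apply, fac, fac, he]
  rw [h7] at h6
  have h8 := h6.sigma fun i => hasSum_log (hg i) hs.le
  exact h8.unique (hasSum_fintype _)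

end

end Pool.Agent.H876.PL
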