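import Pool.Agent.H876.PL.Simple
import Pool.Graph.R_seed8.Z125.UN.NI

/-!
# Smooth irreducible spaces of configurations of distinct points are sufficient
-/

set_option autoImplicit false

open CategoryTheory AlgebraicGeometry MvPolynomial Pool.Agent.Y116.UV Pool.Agent.Z125.UN
  Pool.Agent.Q193.LT

namespace Pool.Agent.H876.PL

/-- The property `P` is invariant under isomorphisms, it is true for `X` if it is true for a closed
subscheme of `X` and its complement, and true for the complement if it is true for `X` and for the closed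
subscheme. -/
structure Glue3 {R : Type} [CommRing R] (sep : Prop) (P : Sch R → Prop) : Prop
    extends Glue sep P where
  opened : ∀ {Z X U : Sch R} (i : Z ⟶ X) (j : U ⟶ X), FT sep X → IsTriple i j → P Z → P X → P U

section

variable {R : Type} [CommRing R] {sep : Prop} {P : Sch R → Prop} (hP : Glue3 sep P)

include hP

section split

variable {A : Type} [CommRing A] [Algebra R A] [Algebra.FiniteType R A]

lemma g_total (w : A) (h1 : P (aff R (A ⧸ Ideal.span {w})))
    (h2 : P (aff R (Localization.Away w))) : P (aff R A) :=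
  hP.total _ _ (ft_aff sep) (triple_away w) h1 h2

lemma g_open (w : A) (h1 : P (aff R (A ⧸ Ideal.span {w}))) (h2 : P (aff R A)) :
    P (aff R (Localization.Away w)) :=
  hP.opened _ _ (ft_aff sep) (triple_away w) h1 h2

/-- quotients of quotients -/
lemma g_quot_ideal (I J : Ideal A) (h : P (aff R (A ⧸ (I ⊔ J)))) :
    P (aff R ((A ⧸ I) ⧸ Ideal.map (Ideal.Quotient.mkₐ R I) J)) :=
  glue_alg hP.toGlue (DoubleQuot.quotQuotEquivQuotSupₐ R I J).symm h

/-- quotients of quotients -/
lemma g_quot_mk (I : Ideal A) (a : A) (h : P (aff R (A ⧸ (I ⊔ Ideal.span {a})))) :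
    P (aff R ((A ⧸ I) ⧸ Ideal.span {Ideal.Quotient.mk I a})) := by
  have h2 : Ideal.map (Ideal.Quotient.mkₐ R I) (Ideal.span {a}) =
      Ideal.span {Ideal.Quotient.mk I a} := by
    rw [Ideal.map_span, Set.image_singleton]
    rfl
  rw [← h2]
  exact g_quot_ideal hP I _ h

end split

section

variable {A : Type} [CommRing A] [Algebra R A] [Algebra.FiniteType R A]

/-- If `a b = 0` then `A_a` is the localisation of `A / b`. -/
lemma g_zero_div {a b : A} (hab : a * b = 0) (h1 : P (aff R (A ⧸ Ideal.span {b})))
    (h2 : P (aff R ((A ⧸ Ideal.span {b}) ⧸ Ideal.span {Ideal.Quotient.mk (Ideal.span {b}) a}))) :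
    P (aff R (Localization.Away a)) := by
  have h3 := g_open hP (Ideal.Quotient.mk (Ideal.span {b}) a) h2 h1
  -- the two localisations are isomorphic
  let B := A ⧸ Ideal.span {b}
  let S := Localization.Away (Ideal.Quotient.mk (Ideal.span {b}) a)
  let f : A →+* S := (algebraMap B S).comp (Ideal.Quotient.mk (Ideal.span {b}))
  let _ : Algebra A S := f.toAlgebra
  have hloc : IsLocalization.Away a S := by
    have hu : IsUnit (algebraMap A S a) := IsLocalization.Away.algebraMap_isUnit
      (S := S) (Ideal.Quotient.mk (Ideal.span {b}) a)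
    refine ⟨?_, ?_, ?_⟩
    · rintro ⟨_, n, rfl⟩
      change IsUnit (algebraMap A S (a ^ n))
      rw [map_pow]
      exact hu.pow n
    · intro z
      obtain ⟨⟨y, ⟨_, n, rfl⟩⟩, hy⟩ := IsLocalization.surj
        (Submonoid.powers (Ideal.Quotient.mk (Ideal.span {b}) a)) z
      obtain ⟨y, rfl⟩ := Ideal.Quotient.mk_surjective y
      refine ⟨(y, ⟨a ^ n, n, rfl⟩), ?_⟩
      change z * algebraMap A S (a ^ n) = _
      have h4 : algebraMap A S (a ^ n) =
          algebraMap B S ((Ideal.Quotient.mk (Ideal.span {b}) a) ^ n) := by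
        rw [← map_pow]
        rfl
      rw [h4]
      exact hy
    · intro x y hxy
      have h5 : algebraMap B S (Ideal.Quotient.mk _ x) = algebraMap B S (Ideal.Quotient.mk _ y) :=
        hxy
      obtain ⟨⟨_, n, rfl⟩, hc⟩ := (IsLocalization.eq_iff_exists
        (Submonoid.powers (Ideal.Quotient.mk (Ideal.span {b}) a)) S).mp h5
      have h6 : Ideal.Quotient.mk (Ideal.span {b}) (a ^ n * x - a ^ n * y) = 0 := by
        rw [map_sub, map_mul, map_mul, map_pow]
        exact sub_eq_zero.mpr hc
      rw [Ideal.Quotient.eq_zero_iff_mem, Ideal.mem_span_singleton] at h6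
      obtain ⟨c, hc⟩ := h6
      refine ⟨⟨a ^ (n + 1), n + 1, rfl⟩, ?_⟩
      change a ^ (n + 1) * x = a ^ (n + 1) * y
      have h7 : a ^ (n + 1) * x - a ^ (n + 1) * y = (a * b) * c := by
        linear_combination a * hc
      rw [hab, zero_mul, sub_eq_zero] at h7
      exact h7
  let e : Localization.Away a ≃ₐ[A] S :=
    IsLocalization.algEquiv (Submonoid.powers a) (Localization.Away a) S
  let e2 : S ≃ₐ[R] Localization.Away a := AlgEquiv.ofRingEquiv (f := e.symm.toRingEquiv) (by
    intro r
    have h8 : algebraMap R S r = algebraMap A S (algebraMap R A r) := rfl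
    change e.symm (algebraMap R S r) = _
    rw [h8, e.symm.commutes, ← IsScalarTower.algebraMap_apply])
  have : Algebra.FiniteType R S :=
    Algebra.FiniteType.trans (S := A ⧸ Ideal.span {b}) inferInstance inferInstance
  exact glue_alg hP.toGlue e2 h3

end

/-- Noetherian induction: it is enough to find, for each domain of finite type, a non-empty open
subscheme for which the property is true. -/
theorem g_noeth [IsNoetherianRing R] {A : Type} [CommRing A] [Algebra R A] [Algebra.FiniteType R A]
    (h0 : ∀ (B : Type) [CommRing B] [Algebra R B], Subsingleton B → P (aff R B))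
    (hD : ∀ p : Ideal A, p.IsPrime → ∃ w : A ⧸ p, w ≠ 0 ∧ P (aff R (Localization.Away w))) :
    P (aff R A) := by
  have hN : IsNoetherianRing A := Algebra.FiniteType.isNoetherianRing R A
  have key : ∀ I : Ideal A, P (aff R (A ⧸ I)) := by
    intro I
    induction I using IsNoetherian.induction with
    | hgt I ih =>
    by_cases hI : I = ⊤
    · subst hI
      exact h0 _ (Ideal.Quotient.subsingleton_iff.mpr rfl)
    by_cases hp : Ideal.IsPrime I
    · obtain ⟨w, hw, hPw⟩ := hD I hp
      obtain ⟨w, rfl⟩ := Ideal.Quotient.mk_surjective w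
      refine g_total hP _ (g_quot_mk hP I w (ih _ ?_)) hPw
      refine lt_of_le_of_ne le_sup_left fun h => hw ?_
      rw [Ideal.Quotient.eq_zero_iff_mem, h]
      exact Ideal.mem_sup_right (Ideal.mem_span_singleton_self w)
    · have h1 : ∃ a b, a * b ∈ I ∧ a ∉ I ∧ b ∉ I := by
        by_contra hcon
        push Not at hcon
        exact hp ⟨hI, fun {a b} hab => by
          by_contra h
          push Not at h
          exact h.2 (hcon a b hab h.1)⟩
      obtain ⟨a, b, hab, ha, hb⟩ := h1
      have hJ : ∀ c, c ∉ I → I < I ⊔ Ideal.span {c} := fun c hc =>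
        lt_of_le_of_ne le_sup_left fun h => hc (by
          rw [h]
          exact Ideal.mem_sup_right (Ideal.mem_span_singleton_self c))
      have hPa := g_quot_mk hP I a (ih _ (hJ a ha))
      have hPb := g_quot_mk hP I b (ih _ (hJ b hb))
      refine g_total hP _ hPa (g_zero_div hP (b := Ideal.Quotient.mk I b) ?_ hPb ?_)
      · rw [← map_mul, Ideal.Quotient.eq_zero_iff_mem]
        exact hab
      · have h2 := ih (I ⊔ (Ideal.span {b} ⊔ Ideal.span {a}))
          (lt_of_lt_of_le (hJ b hb) (sup_le_sup_left le_sup_left I))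
        have h3 := g_quot_ideal hP I _ h2
        have h4 : Ideal.map (Ideal.Quotient.mkₐ R I) (Ideal.span {b} ⊔ Ideal.span {a}) =
            Ideal.span {Ideal.Quotient.mk I b} ⊔ Ideal.span {Ideal.Quotient.mk I a} := by
          rw [Ideal.map_sup, Ideal.map_span, Ideal.map_span, Set.image_singleton,
            Set.image_singleton]
          rfl
        rw [h4] at h3
        exact g_quot_mk hP _ _ h3
  have h := key ⊥
  exact glue_alg hP.toGlue (AlgEquiv.quotientBot R A) h

/-- The property is true for the empty scheme if it is true for some affine scheme. -/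
theorem g_empty {A : Type} [CommRing A] [Algebra R A] [Algebra.FiniteType R A] (h : P (aff R A))
    (B : Type) [CommRing B] [Algebra R B] (hB : Subsingleton B) : P (aff R B) := by
  have h1 : P (aff R (A ⧸ Ideal.span {(0 : A)})) := by
    have h2 : Ideal.span {(0 : A)} = ⊥ := by simp
    rw [h2]
    exact glue_alg hP.toGlue (AlgEquiv.quotientBot R A).symm h
  have h2 : P (aff R (Localization.Away (0 : A))) := g_open hP 0 h1 h
  have h3 : Subsingleton (Localization.Away (0 : A)) :=
    IsLocalization.subsingleton (M := Submonoid.powers (0 : A)) ⟨1, by simp⟩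
  have h4 : Algebra.FiniteType R (Localization.Away (0 : A)) :=
    Algebra.FiniteType.trans (S := A) inferInstance inferInstance
  let e : Localization.Away (0 : A) ≃ₐ[R] B :=
    AlgEquiv.ofRingEquiv (f := { toFun := fun _ => 0
                                 invFun := fun _ => 0
                                 left_inv := fun _ => Subsingleton.elim _ _
                                 right_inv := fun _ => Subsingleton.elim _ _
                                 map_mul' := fun _ _ => Subsingleton.elim _ _
                                 map_add' := fun _ _ => Subsingleton.elim _ _ })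
      (fun _ => Subsingleton.elim _ _)
  exact glue_alg hP.toGlue e h2

end

section

variable {R A σ : Type} [CommRing R] [CommRing A] [Algebra R A] [Fintype σ] [DecidableEq σ] {r : ℕ}
  {c : Fin r → R} {l : σ → Fin 4} {Z : Finset (Lab r σ × Lab r σ × Lab r σ)} {a : σ → A}

lemma conf_rel (t : Lab r σ × Lab r σ × Lab r σ) (ht : t ∈ Z) :
    det3 c l (pv (fun t : {t // t ∈ Z} => det3 c l (X : σ → MvPolynomial σ R) t.1)
      (∏ t ∈ Zᶜ, det3 c l (X : σ → MvPolynomial σ R) t)) t = 0 := by
  have h2 := pc_rel (fun t : {t // t ∈ Z} => det3 c l (X : σ → MvPolynomial σ R) t.1)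
      (∏ t ∈ Zᶜ, det3 c l (X : σ → MvPolynomial σ R) t) ⟨t, ht⟩
  change pc _ _ (det3 c l X t) = 0 at h2
  rw [map_det3] at h2
  exact h2

lemma conf_unit : IsUnit (∏ t ∈ Zᶜ, det3 c l
    (pv (fun t : {t // t ∈ Z} => det3 c l (X : σ → MvPolynomial σ R) t.1)
      (∏ t ∈ Zᶜ, det3 c l (X : σ → MvPolynomial σ R) t)) t) := by
  have h2 := pc_unit (fun t : {t // t ∈ Z} => det3 c l (X : σ → MvPolynomial σ R) t.1)
      (∏ t ∈ Zᶜ, det3 c l (X : σ → MvPolynomial σ R) t)
  rw [map_prod] at h2
  have h3 : ∀ t, pc (fun t : {t // t ∈ Z} => det3 c l (X : σ → MvPolynomial σ R) t.1)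
      (∏ t ∈ Zᶜ, det3 c l (X : σ → MvPolynomial σ R) t) (det3 c l X t) = det3 c l
    (pv (fun t : {t // t ∈ Z} => det3 c l (X : σ → MvPolynomial σ R) t.1)
      (∏ t ∈ Zᶜ, det3 c l (X : σ → MvPolynomial σ R) t)) t := fun t => map_det3 _ _ _ _ _
  simp only [h3] at h2
  exact h2

/-- The configurations with the collinear triples `Z` form an open subscheme of the spectrum of an
encoded ring, if `Z` consists of all collinear triples of the encoding. -/
theorem gen_equiv (h : Enc c l Z a) :
    Nonempty (Localization.Away (∏ t ∈ Zᶜ, det3 c l a t) ≃ₐ[R] Conf c l Z) := by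
  let G := fun t : {t // t ∈ Z} => det3 c l (X : σ → MvPolynomial σ R) t.1
  let w := ∏ t ∈ Zᶜ, det3 c l (X : σ → MvPolynomial σ R) t
  let wa := ∏ t ∈ Zᶜ, det3 c l a t
  obtain ⟨f, hf⟩ := h.lift (Pc G w) (pv G w) conf_rel
  have hfw : f wa = ∏ t ∈ Zᶜ, det3 c l (pv G w) t := by
    rw [map_prod]
    apply Finset.prod_congr rfl
    intro t _
    rw [map_det3, hf]
  let F : Localization.Away wa →ₐ[R] Pc G w :=
    IsLocalization.liftAlgHom (M := Submonoid.powers wa) (f := f) (by
      rintro ⟨_, k, rfl⟩
      change IsUnit (f (wa ^ k))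
      rw [map_pow, hfw]
      exact conf_unit.pow k)
  have hF : ∀ x, F (algebraMap A (Localization.Away wa) x) = f x := by
    intro x
    change IsLocalization.liftAlgHom _ _ = _
    rw [IsLocalization.liftAlgHom_apply, IsLocalization.lift_eq]
    rfl
  let ι : A →ₐ[R] Localization.Away wa := IsScalarTower.toAlgHom R A (Localization.Away wa)
  have h3 : ∀ k, aeval (ι ∘ a) (G k) = 0 := by
    rintro ⟨t, ht⟩
    change aeval (ι ∘ a) (det3 c l X t) = 0
    rw [map_det3]
    have h4 : (aeval (ι ∘ a) : MvPolynomial σ R →ₐ[R] Localization.Away wa) ∘ X = ι ∘ a := by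
      funext i
      exact aeval_X _ i
    rw [h4, ← map_det3, h.rel t ht, map_zero]
  have h5 : IsUnit (aeval (ι ∘ a) w) := by
    have h6 : aeval (ι ∘ a) w = ι wa := by
      rw [map_prod, map_prod]
      apply Finset.prod_congr rfl
      intro t _
      rw [map_det3, map_det3]
      congr 1
      funext i
      exact aeval_X _ i
    rw [h6]
    exact IsLocalization.map_units (M := Submonoid.powers wa) (Localization.Away wa)
      ⟨wa, Submonoid.mem_powers wa⟩
  refine ⟨AlgEquiv.ofAlgHom F (pcLift G w (ι ∘ a) h3 h5) ?_ ?_⟩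
  · apply pc_ext
    intro s
    change F (pcLift G w (ι ∘ a) h3 h5 (pv G w s)) = pv G w s
    rw [pcLift_pv]
    change F (algebraMap A (Localization.Away wa) (a s)) = _
    rw [hF]
    exact congrFun hf s
  · apply IsLocalization.algHom_ext (Submonoid.powers wa)
    apply h.gen
    funext s
    change pcLift G w (ι ∘ a) h3 h5 (F (algebraMap A (Localization.Away wa) (a s))) =
      algebraMap A (Localization.Away wa) (a s)
    rw [hF]
    have h6 : f (a s) = pv G w s := congrFun hf s
    rw [h6, pcLift_pv]
    rfl

end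

end Pool.Agent.H876.PL
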