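import Pool.Agent.H876.PL.Defs
import Pool.Agent.H876.PL.Gen

/-!
# The points of the configuration spaces with values in a field
-/

set_option autoImplicit false

open CategoryTheory AlgebraicGeometry MvPolynomial Pool.Agent.Y116.UV Pool.Agent.Z125.UN

namespace Pool.Agent.H876.PL

section

variable {R σ : Type} [CommRing R] [Fintype σ] [DecidableEq σ] {r : ℕ}

/-- The configurations with coordinates in `K` whose collinear triples are those in `Z`. -/
def Config (c : Fin r → R) (l : σ → Fin 4) (Z : Finset (Lab r σ × Lab r σ × Lab r σ)) (K : Type)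
    [Field K] [Algebra R K] : Type :=
  {p : σ → K // ∀ t : Lab r σ × Lab r σ × Lab r σ, det3 c l p t = 0 ↔ t ∈ Z}

variable (c : Fin r → R) (l : σ → Fin 4) (Z : Finset (Lab r σ × Lab r σ × Lab r σ)) (K : Type)
    [Field K] [Algebra R K]

omit [Fintype σ] [DecidableEq σ] in
lemma aeval_det3 (p : σ → K) (t : Lab r σ × Lab r σ × Lab r σ) :
    aeval p (det3 c l (X : σ → MvPolynomial σ R) t) = det3 c l p t := by
  rw [map_det3]
  congr 1
  funext i
  exact aeval_X p i

/-- The points with values in a field. -/
noncomputable def confPoints : (Conf c l Z →ₐ[R] K) ≃ Config c l Z K where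
  toFun f := ⟨fun i => f (pv _ _ i), fun t => by
    have h1 : det3 c l (fun i => f (pv (fun t : {t // t ∈ Z} => det3 c l
        (X : σ → MvPolynomial σ R) t.1) (∏ t ∈ Zᶜ, det3 c l (X : σ → MvPolynomial σ R) t) i)) t =
        f (det3 c l (pv (fun t : {t // t ∈ Z} => det3 c l
        (X : σ → MvPolynomial σ R) t.1) (∏ t ∈ Zᶜ, det3 c l (X : σ → MvPolynomial σ R) t)) t) :=
      (map_det3 (B := K) f c l _ t).symm
    rw [h1]
    constructor
    · intro h
      by_contra ht
      have h2 := (conf_unit (c := c) (l := l) (Z := Z)).map f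
      rw [map_prod] at h2
      have h3 := Finset.prod_ne_zero_iff.mp h2.ne_zero t (Finset.mem_compl.mpr ht)
      exact h3 h
    · intro ht
      exact (congrArg f (conf_rel t ht)).trans (map_zero f)⟩
  invFun p := pcLift _ _ p.1 (fun t => by
      change aeval p.1 (det3 c l X t.1) = 0
      rw [aeval_det3]
      exact (p.2 t.1).2 t.2) (by
      rw [map_prod, isUnit_iff_ne_zero, Finset.prod_ne_zero_iff]
      intro t ht
      rw [aeval_det3]
      exact fun h => Finset.mem_compl.mp ht ((p.2 t).1 h))
  left_inv f := by
    apply pc_ext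
    intro i
    exact pcLift_pv _ _ _ _ _ i
  right_inv p := by
    apply Subtype.ext
    funext i
    exact pcLift_pv _ _ _ _ _ i

end

end Pool.Agent.H876.PL
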