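import Pool.Agent.H876.PL.Perf
import Pool.Agent.H876.PL.Pt

/-!
# The rings of functions on the configuration spaces in terms of localizations of quotients
-/

set_option autoImplicit false

open CategoryTheory AlgebraicGeometry MvPolynomial Pool.Agent.Y116.UV Pool.Agent.Z125.UN
  Pool.Agent.Q193.LT

namespace Pool.Agent.H876.PL

/-- The ideal generated by the determinants of the triples in `Z`, in the ring of polynomials in the
coordinates of the variable points. -/
noncomputable def collIdeal {R σ : Type} [CommRing R] {r : ℕ} (c : Fin r → R) (l : σ → Fin 4)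
    (Z : Finset (Lab r σ × Lab r σ × Lab r σ)) : Ideal (MvPolynomial σ R) :=
  Ideal.span (Set.range fun t : {t // t ∈ Z} => det3 c l (X : σ → MvPolynomial σ R) t.1)

/-- The product of the determinants of the triples which are not in `Z`, modulo those in `Z`. -/
noncomputable def otherDets {R σ : Type} [CommRing R] [Fintype σ] [DecidableEq σ] {r : ℕ}
    (c : Fin r → R) (l : σ → Fin 4) (Z : Finset (Lab r σ × Lab r σ × Lab r σ)) :
    MvPolynomial σ R ⧸ collIdeal c l Z :=
  Ideal.Quotient.mk (collIdeal c l Z) (∏ t ∈ Zᶜ, det3 c l (X : σ → MvPolynomial σ R) t)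

/-- The ring of functions on the space of all configurations with the collinear triples `Z`: the
polynomials in the coordinates of the variable points modulo the determinants of the triples in `Z`,
with the determinants of the other triples inverted. -/
def ConfRing {R σ : Type} [CommRing R] [Fintype σ] [DecidableEq σ] {r : ℕ} (c : Fin r → R)
    (l : σ → Fin 4) (Z : Finset (Lab r σ × Lab r σ × Lab r σ)) : Type :=
  Localization.Away (otherDets c l Z)

section

variable {R σ : Type} [CommRing R] [Fintype σ] [DecidableEq σ] {r : ℕ} (c : Fin r → R)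
    (l : σ → Fin 4) (Z : Finset (Lab r σ × Lab r σ × Lab r σ))

noncomputable instance instRing : CommRing (ConfRing c l Z) := OreLocalization.instCommRing

noncomputable instance instAlg : Algebra R (ConfRing c l Z) := OreLocalization.instAlgebra

/-- the two descriptions agree -/
noncomputable def confE : Conf c l Z ≃ₐ[R] ConfRing c l Z :=
  (AlgEquiv.refl : ConfRing c l Z ≃ₐ[R] ConfRing c l Z)

end

section

variable {R : Type} [CommRing R] {sep : Prop} {P Q : Sch R → Prop}

/-- the family of the configuration spaces with given properties -/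
def RingFam (P Q : Sch R → Prop) (Sm : ∀ (B : Type) [CommRing B] [Algebra R B], Prop) {r : ℕ}
    (c : Fin r → R) : Prop :=
  ∀ (N : ℕ) (l : Fin N → Fin 4) (Z : Finset (Lab r (Fin N) × Lab r (Fin N) × Lab r (Fin N))),
    Distinct Z → IsDomain (ConfRing c l Z) → Sm (ConfRing c l Z) → Q (aff R (ConfRing c l Z)) →
      P (aff R (ConfRing c l Z))

theorem confFam_of_ring (hP : Glue sep P) (hQ : Hered Q)
    {Sm : ∀ (B : Type) [CommRing B] [Algebra R B], Prop} (hSm : Generic R Sm) {r : ℕ}
    {c : Fin r → R} (h : RingFam P Q Sm c) : ConfFam P Q Sm c := by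
  intro N l Z h1 h2 h3 h4
  have hft : Algebra.FiniteType R (ConfRing c l Z) :=
    Algebra.FiniteType.equiv (inferInstance : Algebra.FiniteType R (Conf c l Z)) (confE c l Z)
  refine glue_alg hP (confE c l Z).symm (h N l Z h1 ?_ ?_ ?_)
  · exact (confE c l Z).symm.toMulEquiv.isDomain (Conf c l Z)
  · exact hSm.iso _ _ ⟨confE c l Z⟩ h3
  · exact hered_alg hQ (confE c l Z) h4

lemma ft_ring {σ : Type} [Fintype σ] [DecidableEq σ] {r : ℕ} (c : Fin r → R)
    (l : σ → Fin 4) (Z : Finset (Lab r σ × Lab r σ × Lab r σ)) :
    Algebra.FiniteType R (ConfRing c l Z) :=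
  Algebra.FiniteType.equiv (inferInstance : Algebra.FiniteType R (Conf c l Z)) (confE c l Z)

end

end Pool.Agent.H876.PL
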