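import Pool.Graph.R_seed8.Z125.UN.Pc
import Pool.Graph.R_seed8.Y116.UV.Defs

/-!
# Spaces of configurations of points on four lines of the projective plane

The four lines are `y = 0`, `y = z`, `z = 0` (these three meet in the point `(1 : 0 : 0)`) and `x = 0`.
A configuration consists of the four points `(1 : 0 : 0)`, `(0 : 1 : 0)`, `(0 : 0 : 1)`, `(1 : 1 : 1)`, of
some fixed points on the line `y = 0`, and of further points on the four lines which vary such that given
triples of points are collinear and the others are not.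
-/

set_option autoImplicit false

open CategoryTheory AlgebraicGeometry MvPolynomial Pool.Agent.Y116.UV Pool.Agent.Z125.UN

namespace Pool.Agent.H876.PL

/-- The four points `(1 : 0 : 0)`, `(0 : 1 : 0)`, `(0 : 0 : 1)`, `(1 : 1 : 1)` in general position. -/
def frame {A : Type} [CommRing A] : Fin 4 → Fin 3 → A :=
  ![![1, 0, 0], ![0, 1, 0], ![0, 0, 1], ![1, 1, 1]]

/-- The point with the coordinate `t` on the line number `l`: the points `(t : 0 : 1)` of the line
`y = 0`, `(t : 1 : 1)` of `y = z`, `(t : 1 : 0)` of `z = 0` and `(0 : t : 1)` of `x = 0`. -/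
def point {A : Type} [CommRing A] (l : Fin 4) (t : A) : Fin 3 → A :=
  (![![t, 0, 1], ![t, 1, 1], ![t, 1, 0], ![0, t, 1]] : Fin 4 → Fin 3 → A) l

/-- The labels of the points: four points of the frame, `r` fixed points, and the variable points. -/
abbrev Lab (r : ℕ) (σ : Type) : Type := Fin 4 ⊕ (Fin r ⊕ σ)

instance instDecLab (r : ℕ) (σ : Type) [DecidableEq σ] : DecidableEq (Lab r σ) :=
  inferInstanceAs (DecidableEq (Fin 4 ⊕ (Fin r ⊕ σ)))

instance instDecTri (r : ℕ) (σ : Type) [DecidableEq σ] :
    DecidableEq (Lab r σ × Lab r σ × Lab r σ) :=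
  instDecidableEqProd

/-- The points of a configuration with the fixed points `(c_j : 0 : 1)` and the coordinates `p` of the
variable points, the point `i` being on the line number `l i`. -/
def pts {R A σ : Type} [CommRing R] [CommRing A] [Algebra R A] {r : ℕ} (c : Fin r → R)
    (l : σ → Fin 4) (p : σ → A) : Lab r σ → Fin 3 → A :=
  Sum.elim frame (Sum.elim (fun j => point 0 (algebraMap R A (c j))) fun i => point (l i) (p i))

/-- The determinant of the coordinates of three points of a configuration: it is zero if and only if the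
three points are collinear. -/
def det3 {R A σ : Type} [CommRing R] [CommRing A] [Algebra R A] {r : ℕ} (c : Fin r → R)
    (l : σ → Fin 4) (p : σ → A) (t : Lab r σ × Lab r σ × Lab r σ) : A :=
  Matrix.det ![pts c l p t.1, pts c l p t.2.1, pts c l p t.2.2]

/-- The ring of functions on the space of all configurations with the collinear triples `Z`. -/
def Conf {R σ : Type} [CommRing R] [Fintype σ] [DecidableEq σ] {r : ℕ} (c : Fin r → R)
    (l : σ → Fin 4) (Z : Finset (Lab r σ × Lab r σ × Lab r σ)) : Type :=
  Pc (fun t : {t // t ∈ Z} => det3 c l (X : σ → MvPolynomial σ R) t.1)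
    (∏ t ∈ Zᶜ, det3 c l (X : σ → MvPolynomial σ R) t)

noncomputable instance {R σ : Type} [CommRing R] [Fintype σ] [DecidableEq σ] {r : ℕ}
    (c : Fin r → R) (l : σ → Fin 4) (Z : Finset (Lab r σ × Lab r σ × Lab r σ)) :
    CommRing (Conf c l Z) :=
  inferInstanceAs (CommRing (Pc _ _))

noncomputable instance {R σ : Type} [CommRing R] [Fintype σ] [DecidableEq σ] {r : ℕ}
    (c : Fin r → R) (l : σ → Fin 4) (Z : Finset (Lab r σ × Lab r σ × Lab r σ)) :
    Algebra R (Conf c l Z) :=
  inferInstanceAs (Algebra R (Pc _ _))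

instance {R σ : Type} [CommRing R] [Fintype σ] [DecidableEq σ] {r : ℕ}
    (c : Fin r → R) (l : σ → Fin 4) (Z : Finset (Lab r σ × Lab r σ × Lab r σ)) :
    Algebra.FiniteType R (Conf c l Z) :=
  inferInstanceAs (Algebra.FiniteType R (Pc _ _))

section

variable {R A B σ : Type} [CommRing R] [CommRing A] [Algebra R A] [CommRing B] [Algebra R B] {r : ℕ}

lemma map_frame (f : A →ₐ[R] B) (j : Fin 4) (s : Fin 3) : f (frame j s) = frame j s := by
  fin_cases j <;> fin_cases s <;> simp [frame]

lemma map_point (f : A →ₐ[R] B) (l : Fin 4) (t : A) (s : Fin 3) :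
    f (point l t s) = point l (f t) s := by
  fin_cases l <;> fin_cases s <;> simp [point]

lemma map_pts (f : A →ₐ[R] B) (c : Fin r → R) (l : σ → Fin 4) (p : σ → A) (j : Lab r σ)
    (s : Fin 3) : f (pts c l p j s) = pts c l (f ∘ p) j s := by
  rcases j with j | j | i
  · exact map_frame f j s
  · change f (point 0 (algebraMap R A (c j)) s) = point 0 (algebraMap R B (c j)) s
    rw [map_point, AlgHom.commutes]
  · exact map_point f _ _ s

lemma map_det (f : A →ₐ[R] B) (u v w : Fin 3 → A) :
    f (Matrix.det ![u, v, w]) = Matrix.det ![f ∘ u, f ∘ v, f ∘ w] := by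
  rw [Matrix.det_fin_three, Matrix.det_fin_three]
  simp

lemma map_det3 (f : A →ₐ[R] B) (c : Fin r → R) (l : σ → Fin 4) (p : σ → A)
    (t : Lab r σ × Lab r σ × Lab r σ) : f (det3 c l p t) = det3 c l (f ∘ p) t := by
  unfold det3
  rw [map_det]
  have h : ∀ j, (f ∘ pts c l p j) = pts c l (f ∘ p) j := fun j => funext fun s => map_pts f c l p j s
  rw [h, h, h]

end

end Pool.Agent.H876.PL
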