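import Pool.Agent.H876.PL.Defs

/-!
# Configurations which encode a ring: constructions

`Enc c l Z a`: the configurations over `R`-algebras `C` in which the triples of `Z` are collinear are the
images of one configuration with the coordinates `a i ∈ A` under the homomorphisms `A → C`.
-/

set_option autoImplicit false

open MvPolynomial

namespace Pool.Agent.H876.PL

/-- The images of the configuration with the coordinates `a` are all configurations in which the triples
of `Z` are collinear. -/
structure Enc {R A σ : Type} [CommRing R] [CommRing A] [Algebra R A] {r : ℕ} (c : Fin r → R)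
    (l : σ → Fin 4) (Z : Finset (Lab r σ × Lab r σ × Lab r σ)) (a : σ → A) : Prop where
  rel : ∀ t ∈ Z, det3 c l a t = 0
  lift : ∀ (C : Type) [CommRing C] [Algebra R C] (p : σ → C), (∀ t ∈ Z, det3 c l p t = 0) →
    ∃ f : A →ₐ[R] C, f ∘ a = p
  gen : ∀ (C : Type) [CommRing C] [Algebra R C] (f g : A →ₐ[R] C), f ∘ a = g ∘ a → f = g

section

variable {R A σ : Type} [CommRing R] [CommRing A] [Algebra R A] {r : ℕ} {c : Fin r → R}
  {l : σ → Fin 4} {Z : Finset (Lab r σ × Lab r σ × Lab r σ)} {a : σ → A}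

/-- the labels after adding a point -/
def lab (r : ℕ) (σ : Type) : Lab r σ → Lab r (Option σ) := Sum.map id (Sum.map id some)

/-- the triples after adding a point -/
def tri3 (r : ℕ) (σ : Type) (t : Lab r σ × Lab r σ × Lab r σ) :
    Lab r (Option σ) × Lab r (Option σ) × Lab r (Option σ) :=
  (lab r σ t.1, lab r σ t.2.1, lab r σ t.2.2)

/-- the lines after adding a point -/
def oline (l : σ → Fin 4) (m : Fin 4) (i : Option σ) : Fin 4 := i.elim m l

/-- the coordinates after adding a point -/
def ocoord {C : Type} (p : σ → C) (y : C) (i : Option σ) : C := i.elim y p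

lemma pts_lab {C : Type} [CommRing C] [Algebra R C] (m : Fin 4) (p : Option σ → C) (j : Lab r σ) :
    pts c (oline l m) p (lab r σ j) = pts c l (p ∘ some) j := by
  rcases j with j | j | i <;> rfl

lemma det3_lab {C : Type} [CommRing C] [Algebra R C] (m : Fin 4) (p : Option σ → C)
    (t : Lab r σ × Lab r σ × Lab r σ) :
    det3 c (oline l m) p (tri3 r σ t) = det3 c l (p ∘ some) t := by
  unfold det3 tri3
  rw [pts_lab, pts_lab, pts_lab]

/-- the triple of the new point and two old points -/
def ntri (j k : Lab r σ) : Lab r (Option σ) × Lab r (Option σ) × Lab r (Option σ) :=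
  (Sum.inr (Sum.inr none), lab r σ j, lab r σ k)

/-- Adding a point which is determined by its collinearity with two points. -/
theorem Enc.add [DecidableEq σ] (h : Enc c l Z a) (m : Fin 4) (q : A) (j k : Lab r σ)
    (hq : ∀ (C : Type) [CommRing C] [Algebra R C] (f : A →ₐ[R] C) (y : C),
      Matrix.det ![point m y, pts c l (f ∘ a) j, pts c l (f ∘ a) k] = 0 ↔ y = f q) :
    Enc c (oline l m) (insert (ntri j k) (Z.image (tri3 r σ))) (ocoord a q) := by
  have hnew : ∀ (C : Type) [CommRing C] [Algebra R C] (p : Option σ → C),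
      det3 c (oline l m) p (ntri j k) =
        Matrix.det ![point m (p none), pts c l (p ∘ some) j, pts c l (p ∘ some) k] := by
    intro C _ _ p
    unfold det3 ntri
    rw [pts_lab, pts_lab]
    rfl
  refine ⟨?_, ?_, ?_⟩
  · intro t ht
    rw [Finset.mem_insert, Finset.mem_image] at ht
    rcases ht with rfl | ⟨t, ht, rfl⟩
    · rw [hnew]
      exact (hq A (AlgHom.id R A) q).mpr rfl
    · rw [det3_lab]
      exact h.rel t ht
  · intro C _ _ p hp
    obtain ⟨f, hf⟩ := h.lift C (p ∘ some) fun t ht => by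
      rw [← det3_lab m p t]
      exact hp _ (Finset.mem_insert_of_mem (Finset.mem_image_of_mem _ ht))
    refine ⟨f, ?_⟩
    have h1 := hp _ (Finset.mem_insert_self _ _)
    rw [hnew, ← hf, hq C f] at h1
    funext i
    rcases i with _ | i
    · exact h1.symm
    · exact congrFun hf i
  · intro C _ _ f g hfg
    exact h.gen C f g (by
      funext i
      exact congrFun hfg (some i))

/-- The point with the coordinate `q` on the line number `m` occurs. -/
def Has (c : Fin r → R) (l : σ → Fin 4) (a : σ → A) (m : Fin 4) (q : A) : Prop :=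
  ∃ j : Lab r σ, pts c l a j = point m q

/-- There is an encoding with finitely many points, in which the points of `F` occur. -/
def Good (c : Fin r → R) (F : Set (Fin 4 × A)) : Prop :=
  ∃ (σ : Type) (_ : Fintype σ) (_ : DecidableEq σ) (l : σ → Fin 4)
    (Z : Finset (Lab r σ × Lab r σ × Lab r σ)) (a : σ → A),
    Enc c l Z a ∧ ∀ x ∈ F, Has c l a x.1 x.2

lemma Good.mono {F G : Set (Fin 4 × A)} (h : Good c G) (hFG : F ⊆ G) : Good c F := by
  obtain ⟨σ, i1, i2, l, Z, a, h1, h2⟩ := h
  exact ⟨σ, i1, i2, l, Z, a, h1, fun x hx => h2 x (hFG hx)⟩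

/-- The basic construction. -/
lemma Good.step {F : Set (Fin 4 × A)} (h : Good c F) {m₁ m₂ : Fin 4} {q₁ q₂ : A}
    (h1 : (m₁, q₁) ∈ F) (h2 : (m₂, q₂) ∈ F) (m : Fin 4) (q : A)
    (hq : ∀ (C : Type) [CommRing C] [Algebra R C] (f : A →ₐ[R] C) (y : C),
      Matrix.det ![point m y, point m₁ (f q₁), point m₂ (f q₂)] = 0 ↔ y = f q) :
    Good c (insert (m, q) F) := by
  obtain ⟨σ, i1, i2, l, Z, a, hE, hF⟩ := h
  obtain ⟨j, hj⟩ := hF _ h1
  obtain ⟨k, hk⟩ := hF _ h2
  have hjf : ∀ (C : Type) [CommRing C] [Algebra R C] (f : A →ₐ[R] C),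
      pts c l (f ∘ a) j = point m₁ (f q₁) := by
    intro C _ _ f
    funext s
    rw [← map_pts, hj, map_point]
  have hkf : ∀ (C : Type) [CommRing C] [Algebra R C] (f : A →ₐ[R] C),
      pts c l (f ∘ a) k = point m₂ (f q₂) := by
    intro C _ _ f
    funext s
    rw [← map_pts, hk, map_point]
  refine ⟨Option σ, inferInstance, inferInstance, _, _, _, hE.add m q j k ?_, ?_⟩
  · intro C _ _ f y
    rw [hjf, hkf]
    exact hq C f y
  · intro x hx
    rcases hx with rfl | hx
    · exact ⟨Sum.inr (Sum.inr none), rfl⟩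
    · obtain ⟨i, hi⟩ := hF x hx
      exact ⟨lab r σ i, by rw [pts_lab]; exact hi⟩

/-- the points of the frame on the four lines -/
def frameSet (A : Type) [CommRing A] : Set (Fin 4 × A) := {(0, 0), (2, 0), (1, 1), (3, 0)}

lemma good_frame {F : Set (Fin 4 × A)} (h : Good c F) : Good c (frameSet A ∪ F) := by
  obtain ⟨σ, i1, i2, l, Z, a, h1, h2⟩ := h
  refine ⟨σ, i1, i2, l, Z, a, h1, ?_⟩
  rintro x ((rfl | rfl | rfl | rfl) | hx)
  · exact ⟨Sum.inl 2, rfl⟩
  · exact ⟨Sum.inl 1, rfl⟩
  · exact ⟨Sum.inl 3, rfl⟩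
  · exact ⟨Sum.inl 2, rfl⟩
  · exact h2 x hx

lemma good_const {F : Set (Fin 4 × A)} (h : Good c F) (j : Fin r) :
    Good c (insert (0, algebraMap R A (c j)) F) := by
  obtain ⟨σ, i1, i2, l, Z, a, h1, h2⟩ := h
  refine ⟨σ, i1, i2, l, Z, a, h1, ?_⟩
  rintro x (rfl | hx)
  · exact ⟨Sum.inr (Sum.inl j), rfl⟩
  · exact h2 x hx

section steps

variable {F : Set (Fin 4 × A)} (h : Good c F)

include h

/-- addition: `(a : 0 : 1)`, `(s : 1 : 0)` and `(a + s : 1 : 1)` are collinear -/
lemma step_add {a s : A} (h1 : (0, a) ∈ F) (h2 : (2, s) ∈ F) : Good c (insert (1, a + s) F) := by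
  refine h.step h1 h2 1 (a + s) ?_
  intro C _ _ f y
  rw [Matrix.det_fin_three, map_add]
  simp only [point, Matrix.cons_val]
  constructor
  · intro h3
    linear_combination -h3
  · rintro rfl
    ring

/-- subtraction -/
lemma step_sub {b s : A} (h1 : (1, b) ∈ F) (h2 : (2, s) ∈ F) : Good c (insert (0, b - s) F) := by
  refine h.step h1 h2 0 (b - s) ?_
  intro C _ _ f y
  rw [Matrix.det_fin_three, map_sub]
  simp only [point, Matrix.cons_val]
  constructor
  · intro h3
    linear_combination -h3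
  · rintro rfl
    ring

/-- subtraction -/
lemma step_sub' {b a : A} (h1 : (1, b) ∈ F) (h2 : (0, a) ∈ F) : Good c (insert (2, b - a) F) := by
  refine h.step h1 h2 2 (b - a) ?_
  intro C _ _ f y
  rw [Matrix.det_fin_three, map_sub]
  simp only [point, Matrix.cons_val]
  constructor
  · intro h3
    linear_combination h3
  · rintro rfl
    ring

/-- multiplication: `(0 : t : 1)`, `(s : 1 : 0)` and `(-ts : 0 : 1)` are collinear -/
lemma step_mul {t s : A} (h1 : (3, t) ∈ F) (h2 : (2, s) ∈ F) : Good c (insert (0, -(t * s)) F) := by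
  refine h.step h1 h2 0 (-(t * s)) ?_
  intro C _ _ f y
  rw [Matrix.det_fin_three, map_neg, map_mul]
  simp only [point, Matrix.cons_val]
  constructor
  · intro h3
    linear_combination -h3
  · rintro rfl
    ring

/-- from the line `y = 0` to the line `x = 0` -/
lemma step_y {a : A} (h1 : (0, a) ∈ F) (h2 : (2, (-1 : A)) ∈ F) : Good c (insert (3, a) F) := by
  refine h.step h1 h2 3 a ?_
  intro C _ _ f y
  rw [Matrix.det_fin_three, map_neg, map_one]
  simp only [point, Matrix.cons_val]
  constructor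
  · intro h3
    linear_combination -h3
  · rintro rfl
    ring

end steps

/-- the auxiliary points with the coordinates `0`, `1`, `-1` -/
def baseSet (A : Type) [CommRing A] : Set (Fin 4 × A) :=
  {(2, -1), (1, 0), (2, 1), (0, 1), (0, 0), (2, 0), (1, 1), (3, 0)}

lemma good_base {F : Set (Fin 4 × A)} (h : Good c F) : Good c (baseSet A ∪ F) := by
  have h0 := good_frame h
  have h1 : Good c (insert (0, 1) (frameSet A ∪ F)) := by
    have := step_sub h0 (b := 1) (s := 0) (Or.inl (by simp [frameSet]))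
      (Or.inl (by simp [frameSet]))
    rwa [sub_zero] at this
  have h2 : Good c (insert (2, 1) (insert (0, 1) (frameSet A ∪ F))) := by
    have := step_sub' h1 (b := 1) (a := 0) (Or.inr (Or.inl (by simp [frameSet])))
      (Or.inr (Or.inl (by simp [frameSet])))
    rwa [sub_zero] at this
  have h3 : Good c (insert (1, 0) (insert (2, 1) (insert (0, 1) (frameSet A ∪ F)))) := by
    have := step_add h2 (a := 0) (s := 0) (Or.inr (Or.inr (Or.inl (by simp [frameSet]))))
      (Or.inr (Or.inr (Or.inl (by simp [frameSet]))))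
    rwa [add_zero] at this
  have h4 : Good c (insert (2, -1) (insert (1, 0) (insert (2, 1) (insert (0, 1)
      (frameSet A ∪ F))))) := by
    have := step_sub' h3 (b := 0) (a := 1) (Or.inl rfl) (Or.inr (Or.inr (Or.inl rfl)))
    rwa [zero_sub] at this
  refine h4.mono ?_
  rintro x ((rfl | rfl | rfl | rfl | hx) | hx)
  · exact Or.inl rfl
  · exact Or.inr (Or.inl rfl)
  · exact Or.inr (Or.inr (Or.inl rfl))
  · exact Or.inr (Or.inr (Or.inr (Or.inl rfl)))
  · exact Or.inr (Or.inr (Or.inr (Or.inr (Or.inl hx))))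
  · exact Or.inr (Or.inr (Or.inr (Or.inr (Or.inr hx))))

/-- The elements `q` such that to each encoding in which the points `(x : 0 : 1)`, `x ∈ X` occur the
point `(q : 0 : 1)` can be added. -/
def Constr (c : Fin r → R) (X : Set A) : Set A :=
  {q | ∀ F : Set (Fin 4 × A), Good c F → (∀ x ∈ X, (0, x) ∈ F) → Good c (insert (0, q) F)}

section constr

variable {X : Set A}

lemma constr_gen {x : A} (hx : x ∈ X) : x ∈ Constr c X := fun F hF h =>
  hF.mono (by
    rintro y (rfl | hy)
    · exact h x hx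
    · exact hy)

lemma constr_const (j : Fin r) : algebraMap R A (c j) ∈ Constr c X := fun _ hF _ =>
  good_const hF j

lemma constr_zero : (0 : A) ∈ Constr c X := fun F hF _ => (good_base hF).mono (by
  rintro y (rfl | hy)
  · exact Or.inl (by simp [baseSet])
  · exact Or.inr hy)

lemma constr_one : (1 : A) ∈ Constr c X := fun F hF _ => (good_base hF).mono (by
  rintro y (rfl | hy)
  · exact Or.inl (by simp [baseSet])
  · exact Or.inr hy)

lemma neg_step {F : Set (Fin 4 × A)} (hF : Good c F) (hB : baseSet A ⊆ F) {q : A}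
    (hq : (0, q) ∈ F) : Good c (insert (0, -q) (insert (3, q) F)) := by
  have h1 := step_y hF hq (hB (by simp [baseSet]))
  have h2 := step_mul h1 (t := q) (s := 1) (Or.inl rfl) (Or.inr (hB (by simp [baseSet])))
  rwa [mul_one] at h2

lemma constr_neg {q : A} (hq : q ∈ Constr c X) : -q ∈ Constr c X := by
  intro F hF hX
  have h1 := good_base (hq F hF hX)
  have h2 := neg_step (q := q) h1 (fun x hx => Or.inl hx) (Or.inr (Or.inl rfl))
  refine h2.mono ?_
  rintro x (rfl | hx)
  · exact Or.inl rfl
  · exact Or.inr (Or.inr (Or.inr (Or.inr hx)))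

lemma constr_add {q q' : A} (hq : q ∈ Constr c X) (hq' : q' ∈ Constr c X) :
    q + q' ∈ Constr c X := by
  intro F hF hX
  have h0 := hq' _ (hq F hF hX) fun x hx => Or.inr (hX x hx)
  have h1 := good_base h0
  -- `-q'` on the line `y = 0`
  have h2 := neg_step (q := q') h1 (fun x hx => Or.inl hx) (Or.inr (Or.inl rfl))
  -- `q'` on the line `z = 0`
  have h3 := step_sub' h2 (b := 0) (a := -q') (Or.inr (Or.inr (Or.inl (by simp [baseSet]))))
    (Or.inl rfl)
  rw [zero_sub, neg_neg] at h3
  -- `q + q'` on the line `y = z`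
  have h4 := step_add h3 (a := q) (s := q')
    (Or.inr (Or.inr (Or.inr (Or.inr (Or.inr (Or.inl rfl)))))) (Or.inl rfl)
  have h5 := step_sub h4 (b := q + q') (s := 0) (Or.inl rfl)
    (Or.inr (Or.inr (Or.inr (Or.inr (Or.inl (by simp [baseSet]))))))
  rw [sub_zero] at h5
  refine h5.mono ?_
  rintro x (rfl | hx)
  · exact Or.inl rfl
  · exact Or.inr (Or.inr (Or.inr (Or.inr (Or.inr (Or.inr (Or.inr (Or.inr hx)))))))

lemma constr_mul {q q' : A} (hq : q ∈ Constr c X) (hq' : q' ∈ Constr c X) :
    q * q' ∈ Constr c X := by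
  intro F hF hX
  have h0 := hq' _ (hq F hF hX) fun x hx => Or.inr (hX x hx)
  have h1 := good_base h0
  have h2 := step_y h1 (a := q) (Or.inr (Or.inr (Or.inl rfl))) (Or.inl (by simp [baseSet]))
  have h3 := step_sub' h2 (b := 0) (a := q') (Or.inr (Or.inl (by simp [baseSet])))
    (Or.inr (Or.inr (Or.inl rfl)))
  rw [zero_sub] at h3
  have h4 := step_mul h3 (t := q) (s := -q') (Or.inr (Or.inl rfl)) (Or.inl rfl)
  rw [mul_neg, neg_neg] at h4
  refine h4.mono ?_
  rintro x (rfl | hx)
  · exact Or.inl rfl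
  · exact Or.inr (Or.inr (Or.inr (Or.inr (Or.inr (Or.inr hx)))))

/-- The constructible elements form a subring. -/
def constrRing (c : Fin r → R) (X : Set A) : Subring A where
  carrier := Constr c X
  mul_mem' := constr_mul
  one_mem' := constr_one
  add_mem' := constr_add
  zero_mem' := constr_zero
  neg_mem' := constr_neg

end constr

/-- Finitely many points can be added. -/
lemma good_finset {X : Set A} {F : Set (Fin 4 × A)} (hF : Good c F) (hX : ∀ x ∈ X, (0, x) ∈ F)
    (G : Finset A) (hG : ∀ g ∈ G, g ∈ Constr c X) : Good c (F ∪ {x | x.1 = 0 ∧ x.2 ∈ G}) := by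
  classical
  induction G using Finset.induction_on with
  | empty =>
    refine hF.mono ?_
    rintro x (hx | ⟨-, hx⟩)
    · exact hx
    · simp at hx
  | insert g G hg ih =>
    have h1 := ih fun x hx => hG x (Finset.mem_insert_of_mem hx)
    refine (hG g (Finset.mem_insert_self _ _) _ h1 fun x hx => Or.inl (hX x hx)).mono ?_
    rintro ⟨m, x⟩ (hx | ⟨h2, hx⟩)
    · exact Or.inr (Or.inl hx)
    · change m = 0 at h2
      change x ∈ insert g G at hx
      subst h2
      rw [Finset.mem_insert] at hx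
      rcases hx with rfl | hx
      · exact Or.inl rfl
      · exact Or.inr (Or.inr ⟨rfl, hx⟩)

/-- Passing to a quotient. -/
lemma good_quot (G : Finset A) (h : Good c ({x | x.1 = 0 ∧ x.2 ∈ G} : Set (Fin 4 × A))) :
    Good c (∅ : Set (Fin 4 × (A ⧸ Ideal.span (G : Set A)))) := by
  classical
  obtain ⟨σ, i1, i2, l, Z, a, hE, hF⟩ := h
  have h1 : ∀ g : G, ∃ j : Lab r σ, pts c l a j = point 0 g.1 := fun g => hF (0, g.1) ⟨rfl, g.2⟩
  choose j hj using h1
  let T : Finset (Lab r σ × Lab r σ × Lab r σ) :=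
    Finset.univ.image fun g : G => (j g, Sum.inl 1, Sum.inl 2)
  have hT : ∀ (C : Type) [CommRing C] [Algebra R C] (f : A →ₐ[R] C) (g : G),
      det3 c l (f ∘ a) (j g, Sum.inl 1, Sum.inl 2) = f g := by
    intro C _ _ f g
    have h2 : pts c l (f ∘ a) (j g) = point 0 (f g.1) := by
      funext s
      rw [← map_pts, hj, map_point]
    unfold det3
    rw [h2, Matrix.det_fin_three]
    simp [point, pts, frame]
  refine ⟨σ, i1, i2, l, Z ∪ T, Ideal.Quotient.mkₐ R (Ideal.span (G : Set A)) ∘ a, ⟨?_, ?_, ?_⟩,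
    fun x hx => hx.elim⟩
  · intro t ht
    rw [Finset.mem_union] at ht
    rcases ht with ht | ht
    · rw [← map_det3, hE.rel t ht, map_zero]
    · obtain ⟨g, -, rfl⟩ := Finset.mem_image.mp ht
      rw [hT]
      exact Ideal.Quotient.eq_zero_iff_mem.mpr (Ideal.subset_span g.2)
  · intro C _ _ p hp
    obtain ⟨f, hf⟩ := hE.lift C p fun t ht => hp t (Finset.mem_union_left _ ht)
    refine ⟨Ideal.Quotient.liftₐ _ f ?_, ?_⟩
    · intro x hx
      have h2 : Ideal.span (G : Set A) ≤ RingHom.ker f := by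
        rw [Ideal.span_le]
        intro g hg
        have h3 := hp _ (Finset.mem_union_right _
          (Finset.mem_image_of_mem _ (Finset.mem_univ (⟨g, hg⟩ : G))))
        rw [← hf, hT] at h3
        exact h3
      exact h2 hx
    · funext i
      exact congrFun hf i
  · intro C _ _ f g hfg
    apply Ideal.Quotient.algHom_ext
    exact hE.gen C _ _ (by
      funext i
      exact congrFun hfg i)

end

/-- The polynomial ring. -/
lemma good_poly {R : Type} [CommRing R] {r : ℕ} (c : Fin r → R) (n : ℕ) :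
    Good c {x : Fin 4 × MvPolynomial (Fin n) R | x.1 = 0 ∧ ∃ i, x.2 = X i} := by
  refine ⟨Fin n, inferInstance, inferInstance, fun _ => 0, ∅, X, ⟨?_, ?_, ?_⟩, ?_⟩
  · intro t ht
    simp at ht
  · intro C _ _ p _
    refine ⟨aeval p, ?_⟩
    funext i
    exact aeval_X p i
  · intro C _ _ f g hfg
    exact MvPolynomial.algHom_ext fun i => congrFun hfg i
  · rintro ⟨m, q⟩ ⟨h1, i, h2⟩
    change m = 0 at h1
    change q = X i at h2
    subst h1 h2
    exact ⟨Sum.inr (Sum.inr i), rfl⟩

/-- Quotients of polynomial rings. -/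
theorem good_of_mem {R : Type} [CommRing R] {r : ℕ} (c : Fin r → R) {n : ℕ}
    (G : Finset (MvPolynomial (Fin n) R))
    (hG : ∀ g ∈ G, ∀ m ∈ g.support, C (coeff m g) ∈
      constrRing c (Set.range (X : Fin n → MvPolynomial (Fin n) R))) :
    Good c (∅ : Set (Fin 4 × (MvPolynomial (Fin n) R ⧸
      Ideal.span (G : Set (MvPolynomial (Fin n) R))))) := by
  apply good_quot
  refine (good_finset (X := Set.range (X : Fin n → MvPolynomial (Fin n) R)) (good_poly c n) ?_ G
    ?_).mono (fun x hx => Or.inr hx)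
  · rintro _ ⟨i, rfl⟩
    exact ⟨rfl, i, rfl⟩
  · intro g hg
    change g ∈ constrRing c (Set.range (X : Fin n → MvPolynomial (Fin n) R))
    rw [g.as_sum]
    refine Subring.sum_mem _ fun m hm => ?_
    rw [monomial_eq]
    refine Subring.mul_mem _ (hG g hg m hm) ?_
    rw [Finsupp.prod]
    refine Subring.prod_mem _ fun i _ => Subring.pow_mem _ ?_ _
    exact constr_gen ⟨i, rfl⟩

end Pool.Agent.H876.PL
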