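import Pool.Agent.H876.PL.Univ

/-!
# Every scheme of finite type is a disjoint union of configuration spaces
-/

set_option autoImplicit false

open CategoryTheory AlgebraicGeometry MvPolynomial Pool.Agent.Y116.UV Pool.Agent.Z125.UN
  Pool.Agent.Q193.LT

namespace Pool.Agent.H876.PL

section

variable {R : Type} [CommRing R]

/-- `X` is the disjoint union of finitely many locally closed subschemes which are isomorphic to members
of the family. -/
def Strata (Fam : Sch R → Prop) (X : Sch R) : Prop :=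
  ∃ (k : ℕ) (C : Fin k → Sch R) (g : ∀ i, C i ⟶ X), (∀ i, Fam (C i)) ∧
    (∀ i, IsImmersion (g i).left) ∧ ∀ x : X.left, ∃! i, x ∈ Set.range (g i).left

lemma strata_of_finite {Fam : Sch R → Prop} {X : Sch R} {ι : Type} [Finite ι] (C : ι → Sch R)
    (g : ∀ i, C i ⟶ X) (h1 : ∀ i, Fam (C i)) (h2 : ∀ i, IsImmersion (g i).left)
    (h3 : ∀ x : X.left, ∃! i, x ∈ Set.range (g i).left) : Strata Fam X := by
  obtain ⟨k, ⟨e⟩⟩ := Finite.exists_equiv_fin ι
  refine ⟨k, C ∘ e.symm, fun i => g (e.symm i), fun i => h1 _, fun i => h2 _, fun x => ?_⟩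
  obtain ⟨i, hi, hu⟩ := h3 x
  refine ⟨e i, ?_, ?_⟩
  · change x ∈ Set.range (g (e.symm (e i))).left
    rw [Equiv.symm_apply_apply]
    exact hi
  · intro j hj
    rw [← hu (e.symm j) hj, Equiv.apply_symm_apply]

theorem glue_str (sep : Prop) (Fam : Sch R → Prop) : Glue sep (Strata Fam) where
  iso {X Y} _ e h := by
    obtain ⟨e⟩ := e
    obtain ⟨k, C, g, h1, h2, h3⟩ := h
    have hi : IsIso e.hom.left := inferInstanceAs (IsIso ((Over.forget _).mapIso e).hom)
    refine ⟨k, C, fun i => g i ≫ e.hom, h1, fun i => ?_, fun y => ?_⟩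
    · have := h2 i
      exact inferInstanceAs (IsImmersion ((g i).left ≫ e.hom.left))
    · obtain ⟨x, rfl⟩ := e.hom.left.surjective y
      have hinj : Function.Injective e.hom.left := e.hom.left.isOpenEmbedding.injective
      have hr : ∀ i, e.hom.left x ∈ Set.range (g i ≫ e.hom).left ↔ x ∈ Set.range (g i).left := by
        intro i
        constructor
        · rintro ⟨z, hz⟩
          refine ⟨z, hinj ?_⟩
          rw [← hz]
          rfl
        · rintro ⟨z, rfl⟩
          exact ⟨z, rfl⟩
      obtain ⟨i, hi, hu⟩ := h3 x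
      exact ⟨i, (hr i).2 hi, fun j hj => hu j ((hr j).1 hj)⟩
  total {Z X U} i j _ ht hZ hU := by
    obtain ⟨k₁, C₁, g₁, h11, h12, h13⟩ := hZ
    obtain ⟨k₂, C₂, g₂, h21, h22, h23⟩ := hU
    have hcl := ht.closed
    have hop := ht.opened
    have hi : Function.Injective i.left := i.left.isClosedEmbedding.injective
    have hj : Function.Injective j.left := j.left.isOpenEmbedding.injective
    have hr1 : ∀ a z, i.left z ∈ Set.range (g₁ a ≫ i).left ↔ z ∈ Set.range (g₁ a).left := by
      intro a z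
      constructor
      · rintro ⟨y, hy⟩
        refine ⟨y, hi ?_⟩
        rw [← hy]
        rfl
      · rintro ⟨y, rfl⟩
        exact ⟨y, rfl⟩
    have hr2 : ∀ a z, j.left z ∈ Set.range (g₂ a ≫ j).left ↔ z ∈ Set.range (g₂ a).left := by
      intro a z
      constructor
      · rintro ⟨y, hy⟩
        refine ⟨y, hj ?_⟩
        rw [← hy]
        rfl
      · rintro ⟨y, rfl⟩
        exact ⟨y, rfl⟩
    have hd : ∀ x, x ∈ Set.range i.left → x ∉ Set.range j.left := by
      intro x hx
      rw [ht.compl] at hx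
      exact hx
    have hs1 : ∀ a x, x ∈ Set.range (g₁ a ≫ i).left → x ∈ Set.range i.left := by
      rintro a x ⟨y, rfl⟩
      exact ⟨(g₁ a).left y, rfl⟩
    have hs2 : ∀ a x, x ∈ Set.range (g₂ a ≫ j).left → x ∈ Set.range j.left := by
      rintro a x ⟨y, rfl⟩
      exact ⟨(g₂ a).left y, rfl⟩
    refine strata_of_finite (ι := Fin k₁ ⊕ Fin k₂) (Sum.elim C₁ C₂)
      (fun a => match a with
        | Sum.inl a => g₁ a ≫ i
        | Sum.inr a => g₂ a ≫ j) ?_ ?_ ?_
    · rintro (a | a)
      · exact h11 a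
      · exact h21 a
    · rintro (a | a)
      · have := h12 a
        exact inferInstanceAs (IsImmersion ((g₁ a).left ≫ i.left))
      · have := h22 a
        exact inferInstanceAs (IsImmersion ((g₂ a).left ≫ j.left))
    · intro x
      by_cases hx : x ∈ Set.range j.left
      · obtain ⟨z, rfl⟩ := hx
        obtain ⟨a, ha, hu⟩ := h23 z
        refine ⟨Sum.inr a, (hr2 a z).2 ha, ?_⟩
        rintro (b | b) hb
        · exact absurd ⟨z, rfl⟩ (hd _ (hs1 b _ hb))
        · rw [hu b ((hr2 b z).1 hb)]
      · have hx' : x ∈ Set.range i.left := by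
          rw [ht.compl]
          exact hx
        obtain ⟨z, rfl⟩ := hx'
        obtain ⟨a, ha, hu⟩ := h13 z
        refine ⟨Sum.inl a, (hr1 a z).2 ha, ?_⟩
        rintro (b | b) hb
        · rw [hu b ((hr1 b z).1 hb)]
        · exact absurd (hs2 b _ hb) hx

lemma strata_empty (Fam : Sch R → Prop) {X : Sch R} (h : IsEmpty X.left) : Strata Fam X :=
  ⟨0, fun i => i.elim0, fun i => i.elim0, fun i => i.elim0, fun i => i.elim0, fun x => h.elim x⟩

lemma strata_one {Fam : Sch R → Prop} {X : Sch R} (h : Fam X) : Strata Fam X := by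
  refine ⟨1, fun _ => X, fun _ => 𝟙 X, fun _ => h, fun _ => ?_, fun x => ?_⟩
  · exact inferInstanceAs (IsImmersion (𝟙 X.left))
  · exact ⟨0, ⟨x, rfl⟩, fun j _ => Subsingleton.elim _ _⟩

end

section

variable {X : Scheme.{0}} {ι : Type} {C : ι → Scheme.{0}} (g : ∀ i, C i ⟶ X)
  (h2 : ∀ i, IsImmersion (g i)) (h3 : ∀ x : X, ∃! i, x ∈ Set.range (g i))

include h2 h3

/-- The points with values in a field. -/
theorem field_points (K : Type) [Field K] : Function.Bijective
    fun y : (Σ i, (Spec (CommRingCat.of K) ⟶ C i)) => y.2 ≫ g y.1 := by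
  constructor
  · rintro ⟨i, y⟩ ⟨j, z⟩ hyz
    change y ≫ g i = z ≫ g j at hyz
    let p : Spec (CommRingCat.of K) := IsLocalRing.closedPoint K
    have h4 : (y ≫ g i) p ∈ Set.range (g i) := ⟨y p, rfl⟩
    have h5 : (y ≫ g i) p ∈ Set.range (g j) := by
      rw [hyz]
      exact ⟨z p, rfl⟩
    obtain rfl : i = j := (h3 _).unique h4 h5
    have := h2 i
    rw [cancel_mono] at hyz
    rw [hyz]
  · intro f
    let p : Spec (CommRingCat.of K) := IsLocalRing.closedPoint K
    obtain ⟨i, ⟨y, hy⟩, -⟩ := h3 (f p)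
    have := h2 i
    -- the residue fields
    have h4 : Function.Bijective ((g i).residueFieldMap y).hom := by
      refine ⟨RingHom.injective _, ?_⟩
      intro a
      obtain ⟨z, rfl⟩ := (C i).residue_surjective y a
      obtain ⟨w, rfl⟩ := (g i).stalkMap_surjective y z
      refine ⟨X.residue (g i y) w, ?_⟩
      have h := Scheme.residue_residueFieldMap (g i) y
      exact congrArg (fun g => g.hom w) h
    have h5 : IsIso ((g i).residueFieldMap y) :=
      (ConcreteCategory.isIso_iff_bijective _).2 h4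
    obtain ⟨e, he⟩ := (Scheme.SpecToEquivOfField K X).symm.surjective f
    obtain ⟨x, φ⟩ := e
    have he' : Spec.map φ ≫ X.fromSpecResidueField x = f := he
    have hx : f p = x := by
      rw [← he']
      exact Scheme.fromSpecResidueField_apply x _
    have hx' : g i y = x := hy.trans hx
    subst hx'
    refine ⟨⟨i, Spec.map (inv ((g i).residueFieldMap y) ≫ φ) ≫ (C i).fromSpecResidueField y⟩, ?_⟩
    change (Spec.map (inv ((g i).residueFieldMap y) ≫ φ) ≫ (C i).fromSpecResidueField y) ≫ g i = f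
    rw [Category.assoc, ← Scheme.Hom.SpecMap_residueFieldMap_fromSpecResidueField,
      ← Category.assoc, ← Spec.map_comp, IsIso.hom_inv_id_assoc]
    exact he'

end

end Pool.Agent.H876.PL
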