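import Pool.Agent.H876.PL.Strat
import Pool.Graph.R_seed8.Z125.UN.Dim2

/-!
# Point-line configurations decide every property which can be glued

If a property of schemes of finite type over a noetherian ring `R` is invariant under isomorphisms and
true for `X` if it is true for a closed subscheme of `X` and for its complement, and if it is true for the
spaces of configurations of points on four lines in the projective plane, then it is true for all schemes
of finite type over `R`.
-/

set_option autoImplicit false

open CategoryTheory AlgebraicGeometry MvPolynomial Pool.Agent.Y116.UV Pool.Agent.Z125.UN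
  Pool.Agent.Q193.LT

namespace Pool.Agent.H876.PL

/-- The space of the configurations with `N` variable points on the lines `l`, the fixed points
`(c_j : 0 : 1)` and the collinear triples `Z`. -/
noncomputable def confS {R : Type} [CommRing R] {r N : ℕ} (c : Fin r → R) (l : Fin N → Fin 4)
    (Z : Finset (Lab r (Fin N) × Lab r (Fin N) × Lab r (Fin N))) : Sch R :=
  aff R (Conf c l Z)

section

variable {R A σ σ' : Type} [CommRing R] [CommRing A] [Algebra R A] {r : ℕ} {c : Fin r → R}
  {l : σ → Fin 4} {Z : Finset (Lab r σ × Lab r σ × Lab r σ)} {a : σ → A}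

/-- renaming the points -/
def labE (r : ℕ) (e : σ ≃ σ') : Lab r σ → Lab r σ' := Sum.map id (Sum.map id e)

/-- renaming the points -/
def triE (r : ℕ) (e : σ ≃ σ') (t : Lab r σ × Lab r σ × Lab r σ) :
    Lab r σ' × Lab r σ' × Lab r σ' :=
  (labE r e t.1, labE r e t.2.1, labE r e t.2.2)

lemma pts_labE {C : Type} [CommRing C] [Algebra R C] (e : σ ≃ σ') (p : σ' → C) (j : Lab r σ) :
    pts c (l ∘ e.symm) p (labE r e j) = pts c l (p ∘ e) j := by
  rcases j with j | j | i
  · rfl
  · rfl
  · change point (l (e.symm (e i))) (p (e i)) = point (l i) (p (e i))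
    rw [Equiv.symm_apply_apply]

lemma det3_labE {C : Type} [CommRing C] [Algebra R C] (e : σ ≃ σ') (p : σ' → C)
    (t : Lab r σ × Lab r σ × Lab r σ) :
    det3 c (l ∘ e.symm) p (triE r e t) = det3 c l (p ∘ e) t := by
  unfold det3 triE
  rw [pts_labE, pts_labE, pts_labE]

theorem Enc.rename [DecidableEq σ'] (h : Enc c l Z a) (e : σ ≃ σ') :
    Enc c (l ∘ e.symm) (Z.image (triE r e)) (a ∘ e.symm) := by
  refine ⟨?_, ?_, ?_⟩
  · intro t ht
    obtain ⟨t', ht', rfl⟩ := Finset.mem_image.mp ht
    rw [det3_labE]
    have h1 : (a ∘ e.symm) ∘ e = a := by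
      funext i
      simp
    rw [h1]
    exact h.rel t' ht'
  · intro C _ _ p hp
    obtain ⟨f, hf⟩ := h.lift C (p ∘ e) fun t ht => by
      rw [← det3_labE e p t]
      exact hp _ (Finset.mem_image_of_mem _ ht)
    refine ⟨f, ?_⟩
    funext i
    have h1 := congrFun hf (e.symm i)
    simp only [Function.comp_apply, Equiv.apply_symm_apply] at h1
    exact h1
  · intro C _ _ f g hfg
    refine h.gen C f g ?_
    funext i
    have h1 := congrFun hfg (e i)
    simp only [Function.comp_apply, Equiv.symm_apply_apply] at h1
    exact h1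

end

section

variable {R : Type} [CommRing R] {sep : Prop} {P : Sch R → Prop}

/-- From the configuration spaces to an encoded ring. -/
theorem of_good (hP : Glue sep P) {r : ℕ} (c : Fin r → R)
    (h : ∀ (N : ℕ) (l : Fin N → Fin 4)
      (Z : Finset (Lab r (Fin N) × Lab r (Fin N) × Lab r (Fin N))), P (confS c l Z))
    {A : Type} [CommRing A] [Algebra R A] (hA : Good c (∅ : Set (Fin 4 × A))) :
    P (aff R A) := by
  obtain ⟨σ, i1, i2, l, Z, a, hE, -⟩ := hA
  have hE' := hE.rename (Fintype.equivFin σ)
  refine glue_alg hP (encEquiv hE') (glue_strata hP _ ?_ _)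
  intro Z'
  exact h _ (l ∘ (Fintype.equivFin σ).symm) Z'

/-- The affine case. -/
theorem affine_conf (hP : Glue sep P) {S : Set R} (hS : Presents S)
    (hc : ∀ F : Finset R, (∀ x ∈ F, x ∈ S) → ∃ (r : ℕ) (c : Fin r → R),
      (∀ x ∈ F, x = 0 ∨ x = 1 ∨ ∃ j, c j = x) ∧ ∀ (N : ℕ) (l : Fin N → Fin 4)
        (Z : Finset (Lab r (Fin N) × Lab r (Fin N) × Lab r (Fin N))), P (confS c l Z))
    (A : Type) [CommRing A] [Algebra R A] [Algebra.FiniteType R A] : P (aff R A) := by
  classical
  obtain ⟨n, φ, G, hs, hK, hG⟩ := hS A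
  let F : Finset R := G.biUnion fun g => g.support.image fun m => coeff m g
  obtain ⟨r, c, hF, h⟩ := hc F (by
    intro x hx
    obtain ⟨g, hg, hx⟩ := Finset.mem_biUnion.mp hx
    obtain ⟨m, -, rfl⟩ := Finset.mem_image.mp hx
    exact hG g hg m)
  have h1 := good_of_mem c G (by
    intro g hg m hm
    have h2 : coeff m g ∈ F :=
      Finset.mem_biUnion.mpr ⟨g, hg, Finset.mem_image_of_mem _ hm⟩
    rcases hF _ h2 with h3 | h3 | ⟨j, h3⟩
    · rw [h3, map_zero]
      exact Subring.zero_mem _
    · rw [h3, map_one]
      exact Subring.one_mem _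
    · rw [← h3]
      exact constr_const j)
  have h2 : P (aff R (MvPolynomial (Fin n) R ⧸ Ideal.span (G : Set (MvPolynomial (Fin n) R)))) :=
    of_good hP c h h1
  rw [← hK] at h2
  exact glue_alg hP (Ideal.quotientKerAlgEquivOfSurjective hs) h2

/-- **Universality of point-line configurations**, over the rings in which all elements are quotients of
integers (the prime fields, the ring of integers and its localizations): no fixed points are needed. -/
theorem conf_frac [IsNoetherianRing R] (hR : Frac R) (hP : Glue sep P)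
    (h : ∀ (N : ℕ) (l : Fin N → Fin 4)
      (Z : Finset (Lab 0 (Fin N) × Lab 0 (Fin N) × Lab 0 (Fin N))),
        P (confS (![] : Fin 0 → R) l Z)) (X : Sch R) (hX : FT sep X) : P X :=
  of_affine' hP.iso hP.total (fun A _ _ _ => affine_conf hP (presents_frac hR) (by
    intro F hF
    refine ⟨0, ![], fun x hx => ?_, h⟩
    rcases hF x hx with h1 | h1
    · exact Or.inl h1
    · exact Or.inr (Or.inl h1)) A) X hX

/-- **Universality of point-line configurations**, over a noetherian ring. -/
theorem conf_noeth [IsNoetherianRing R] (hP : Glue sep P)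
    (h : ∀ (r N : ℕ) (c : Fin r → R) (l : Fin N → Fin 4)
      (Z : Finset (Lab r (Fin N) × Lab r (Fin N) × Lab r (Fin N))), P (confS c l Z))
    (X : Sch R) (hX : FT sep X) : P X :=
  of_affine' hP.iso hP.total (fun A _ _ _ => affine_conf hP presents_univ (by
    intro F _
    refine ⟨F.card, fun j => ((Finset.equivFin F).symm j).1, fun x hx => ?_, fun N l Z => h _ _ _ _ _⟩
    refine Or.inr (Or.inr ⟨Finset.equivFin F ⟨x, hx⟩, ?_⟩)
    simp) A) X hX

/-- A property `Q` which is inherited by closed and by open subschemes. -/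
structure Hered (Q : Sch R → Prop) : Prop where
  iso : ∀ {X Y : Sch R}, Nonempty (X ≅ Y) → Q X → Q Y
  closed : ∀ {Z X : Sch R} (i : Z ⟶ X), IsClosedImmersion i.left → Q X → Q Z
  opened : ∀ {U X : Sch R} (j : U ⟶ X), IsOpenImmersion j.left → Q X → Q U

/-- Gluing inside the schemes with the property `Q`. -/
theorem glue_imp {Q : Sch R → Prop} (hP : Glue sep P) (hQ : Hered Q) :
    Glue sep (fun X => Q X → P X) where
  iso {X Y} hX e h hY := hP.iso hX e (h (hQ.iso (by obtain ⟨e⟩ := e; exact ⟨e.symm⟩) hY))
  total {Z X U} i j hX ht hZ hU h := hP.total i j hX ht (hZ (hQ.closed i ht.closed h))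
    (hU (hQ.opened j ht.opened h))

theorem hered_dim (n : WithBot ℕ∞) : Hered fun X : Sch R => topologicalKrullDim X.left ≤ n where
  iso {X Y} e h := by
    obtain ⟨e⟩ := e
    let f := (Over.forget _).mapIso e.symm
    exact (Topology.IsInducing.topologicalKrullDim_le
      (Scheme.homeoOfIso f).isInducing).trans h
  closed {Z X} i hi h := by
    have h1 := (have := hi; i.left.isClosedEmbedding.isInducing)
    exact h1.topologicalKrullDim_le.trans h
  opened {U X} j hj h := by
    have h1 := (have := hj; j.left.isOpenEmbedding.isInducing)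
    exact h1.topologicalKrullDim_le.trans h

end

end Pool.Agent.H876.PL
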