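import Pool.Agent.H876.PL.Simple

/-!
# Noetherian induction for properties which can be glued
-/

set_option autoImplicit false

open CategoryTheory AlgebraicGeometry MvPolynomial Pool.Agent.Y116.UV Pool.Agent.Z125.UN
  Pool.Agent.Q193.LT

namespace Pool.Agent.H876.PL

section

variable {R : Type} [CommRing R] {σ : Type}

/-- The ring of functions on the locally closed subscheme `J = 0`, `w ≠ 0` of the affine space. -/
abbrev Pj (J : Ideal (MvPolynomial σ R)) (w : MvPolynomial σ R) : Type :=
  Pc (fun g : J => (g : MvPolynomial σ R)) w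

lemma span_sub (J : Ideal (MvPolynomial σ R)) :
    Ideal.span (Set.range fun g : J => (g : MvPolynomial σ R)) = J := by
  have h : (Set.range fun g : J => (g : MvPolynomial σ R)) = (J : Set (MvPolynomial σ R)) := by
    ext x
    simp
  rw [h]
  exact Ideal.span_eq J

variable {J : Ideal (MvPolynomial σ R)} {w : MvPolynomial σ R}

lemma pj_eq_zero_iff [hJ : J.IsPrime] (hw : w ∉ J) (p : MvPolynomial σ R) :
    pc (fun g : J => (g : MvPolynomial σ R)) w p = 0 ↔ p ∈ J := by
  constructor
  · intro h
    rw [pc_apply, IsLocalization.map_eq_zero_iff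
      (Submonoid.powers (Ideal.Quotient.mk (Ideal.span (Set.range fun g : J =>
        (g : MvPolynomial σ R))) w))] at h
    obtain ⟨⟨_, n, rfl⟩, hn⟩ := h
    change Ideal.Quotient.mk _ w ^ n * Ideal.Quotient.mk _ p = 0 at hn
    rw [← map_pow, ← map_mul, Ideal.Quotient.eq_zero_iff_mem, span_sub] at hn
    rcases hJ.mem_or_mem hn with h1 | h1
    · exact absurd (hJ.mem_of_pow_mem n h1) hw
    · exact h1
  · intro h
    exact pc_zero _ _ (by rw [span_sub]; exact h)

lemma pj_surj (x : Pj J w) : ∃ (n : ℕ) (p : MvPolynomial σ R),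
    x * pc (fun g : J => (g : MvPolynomial σ R)) w w ^ n =
      pc (fun g : J => (g : MvPolynomial σ R)) w p := by
  obtain ⟨⟨y, ⟨_, n, rfl⟩⟩, h⟩ := IsLocalization.surj
    (Submonoid.powers (Ideal.Quotient.mk (Ideal.span (Set.range fun g : J =>
        (g : MvPolynomial σ R))) w)) x
  obtain ⟨p, rfl⟩ := Ideal.Quotient.mk_surjective y
  refine ⟨n, p, ?_⟩
  rw [pc_apply, pc_apply, ← map_pow]
  exact h

lemma pj_domain [hJ : J.IsPrime] (hw : w ∉ J) : IsDomain (Pj J w) := by
  have h1 : Nontrivial (Pj J w) := by
    refine ⟨⟨0, 1, fun h => ?_⟩⟩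
    have h2 : pc (fun g : J => (g : MvPolynomial σ R)) w 1 = 0 := by
      rw [map_one]
      exact h.symm
    rw [pj_eq_zero_iff hw] at h2
    exact hJ.ne_top ((Ideal.eq_top_iff_one J).mpr h2)
  have h2 : NoZeroDivisors (Pj J w) := by
    refine ⟨fun {x y} hxy => ?_⟩
    obtain ⟨n, p, hp⟩ := pj_surj x
    obtain ⟨m, q, hq⟩ := pj_surj y
    have hu := pc_unit (fun g : J => (g : MvPolynomial σ R)) w
    have h3 : pc (fun g : J => (g : MvPolynomial σ R)) w (p * q) = 0 := by
      rw [map_mul, ← hp, ← hq]
      linear_combination (pc (fun g : J => (g : MvPolynomial σ R)) w w ^ n *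
        pc (fun g : J => (g : MvPolynomial σ R)) w w ^ m) * hxy
    rw [pj_eq_zero_iff hw] at h3
    rcases hJ.mem_or_mem h3 with h4 | h4
    · left
      rw [← pj_eq_zero_iff hw, ← hp] at h4
      exact (hu.pow n).mul_left_eq_zero.mp h4
    · right
      rw [← pj_eq_zero_iff hw, ← hq] at h4
      exact (hu.pow m).mul_left_eq_zero.mp h4
  exact NoZeroDivisors.to_isDomain _

lemma pj_sub_top (w : MvPolynomial σ R) (h : w ∈ J) : Subsingleton (Pj J w) := by
  have h1 : IsUnit (pc (fun g : J => (g : MvPolynomial σ R)) w w) := pc_unit _ _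
  rw [pc_zero _ _ (by rw [span_sub]; exact h)] at h1
  exact subsingleton_of_zero_eq_one (isUnit_zero_iff.mp h1)

variable {sep : Prop} {P : Sch R → Prop}

lemma pj_glue (hP : Glue sep P) [Finite σ] {e : MvPolynomial σ R}
    (hc : P (aff R (Pj (J ⊔ Ideal.span {e}) w))) (ho : P (aff R (Pj J (w * e)))) :
    P (aff R (Pj J w)) := by
  refine glue_pc hP (e := e) ?_ ho
  refine glue_alg hP (pcCongr _ _ _ _ ?_ ?_ rfl) hc
  · intro g
    have h1 : (Ideal.span (Set.range (adj (fun g : J => (g : MvPolynomial σ R)) e))) =
        J ⊔ Ideal.span {e} := by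
      apply le_antisymm
      · rw [Ideal.span_le]
        rintro _ ⟨_ | g, rfl⟩
        · exact Ideal.mem_sup_right (Ideal.mem_span_singleton_self e)
        · exact Ideal.mem_sup_left g.2
      · rw [sup_le_iff, Ideal.span_le]
        refine ⟨fun g hg => Ideal.subset_span ⟨some ⟨g, hg⟩, rfl⟩, ?_⟩
        rintro _ rfl
        exact Ideal.subset_span ⟨none, rfl⟩
    rw [h1]
    exact g.2
  · intro g
    rw [span_sub]
    rcases g with _ | g
    · exact Ideal.mem_sup_right (Ideal.mem_span_singleton_self e)
    · exact Ideal.mem_sup_left g.2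

/-- If `a b = 0` and `a` is invertible, then `b = 0`. -/
noncomputable def pjDiv (J : Ideal (MvPolynomial σ R)) (w a b : MvPolynomial σ R)
    (hab : a * b ∈ J) : Pj (J ⊔ Ideal.span {b}) (w * a) ≃ₐ[R] Pj J (w * a) := by
  have hb : pc (fun g : J => (g : MvPolynomial σ R)) (w * a) b = 0 := by
    have h1 : pc (fun g : J => (g : MvPolynomial σ R)) (w * a) (a * b) = 0 :=
      pc_zero _ _ (by rw [span_sub]; exact hab)
    rw [map_mul] at h1
    exact (pc_unit_right _ w a).mul_right_eq_zero.mp h1
  have hker : ∀ g ∈ J ⊔ Ideal.span {b}, pc (fun g : J => (g : MvPolynomial σ R)) (w * a) g = 0 := by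
    intro g hg
    have h1 : J ⊔ Ideal.span {b} ≤
        RingHom.ker (pc (fun g : J => (g : MvPolynomial σ R)) (w * a)) := by
      rw [sup_le_iff]
      refine ⟨fun g hg => pc_zero _ _ (by rw [span_sub]; exact hg), ?_⟩
      rw [Ideal.span_le]
      rintro _ rfl
      exact hb
    exact h1 hg
  exact pcEquiv (pv _ _) (fun k => by rw [pc_aeval]; exact hker _ k.2)
    (by rw [pc_aeval]; exact pc_unit _ _)
    (pv _ _) (fun k => by
      rw [pc_aeval]
      exact pc_zero _ _ (by rw [span_sub]; exact Ideal.mem_sup_left k.2))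
    (by rw [pc_aeval]; exact pc_unit _ _)
    (fun s => by rw [pcLift_pv]) (fun s => by rw [pcLift_pv])

/-- **Noetherian induction**: it is enough to find, for each domain of finite type, a nonempty principal
open subscheme for which the property is true. -/
theorem glue_noeth [IsNoetherianRing R] (hP : Glue sep P)
    (h0 : ∀ (B : Type) [CommRing B] [Algebra R B], Subsingleton B → P (aff R B))
    {A : Type} [CommRing A] [Algebra R A] [Algebra.FiniteType R A]
    (hD : ∀ (p : Ideal A) (f : A ⧸ p), p.IsPrime → f ≠ 0 →
      ∃ w : Localization.Away f, w ≠ 0 ∧ P (aff R (Localization.Away w))) :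
    P (aff R A) := by
  obtain ⟨n, φ, hφ⟩ := Algebra.FiniteType.iff_quotient_mvPolynomial''.mp
    (inferInstance : Algebra.FiniteType R A)
  have hN : IsNoetherianRing (MvPolynomial (Fin n) R) := inferInstance
  have key : ∀ (J : Ideal (MvPolynomial (Fin n) R)), RingHom.ker φ ≤ J →
      ∀ w, P (aff R (Pj J w)) := by
    intro J
    induction J using IsNoetherian.induction with
    | hgt J ih =>
    intro hKJ w
    by_cases hw : w ∈ J
    · exact h0 _ (pj_sub_top w hw)
    have hJ : ∀ c, c ∉ J → J < J ⊔ Ideal.span {c} := fun c hc =>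
      lt_of_le_of_ne le_sup_left fun h => hc (by
        rw [h]
        exact Ideal.mem_sup_right (Ideal.mem_span_singleton_self c))
    by_cases hp : Ideal.IsPrime J
    · -- the corresponding prime ideal of `A`
      let p : Ideal A := Ideal.map φ J
      have hcomap : p.comap φ = J := by
        rw [Ideal.comap_map_of_surjective' φ hφ, sup_eq_left]
        exact hKJ
      have hpp : p.IsPrime := Ideal.map_isPrime_of_surjective hφ hKJ
      let f : A ⧸ p := Ideal.Quotient.mk p (φ w)
      have hf : f ≠ 0 := by
        intro h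
        rw [Ideal.Quotient.eq_zero_iff_mem] at h
        have h1 : w ∈ p.comap φ := h
        rw [hcomap] at h1
        exact hw h1
      obtain ⟨v, hv, hPv⟩ := hD p f hpp hf
      -- the rings `Pj J w` and `(A ⧸ p)_f`
      have hmem : ∀ g, φ g ∈ p ↔ g ∈ J := by
        intro g
        rw [← hcomap]
        rfl
      let θ : MvPolynomial (Fin n) R →ₐ[R] Localization.Away f :=
        (IsScalarTower.toAlgHom R (A ⧸ p) (Localization.Away f)).comp
          ((Ideal.Quotient.mkₐ R p).comp φ)
      have hθ : ∀ g, θ g = algebraMap (A ⧸ p) (Localization.Away f)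
        (Ideal.Quotient.mk p (φ g)) := fun g => rfl
      have hθJ : ∀ g ∈ J, θ g = 0 := by
        intro g hg
        rw [hθ, Ideal.Quotient.eq_zero_iff_mem.mpr ((hmem g).mpr hg), map_zero]
      have hθv : (fun s => θ (X s)) = fun s => θ (X s) := rfl
      have hae : ∀ g, aeval (fun s => θ (X s)) g = θ g := by
        intro g
        have h1 : (aeval (fun s => θ (X s)) : MvPolynomial (Fin n) R →ₐ[R] _) = θ := by
          apply MvPolynomial.algHom_ext
          intro s
          rw [aeval_X]
        rw [h1]
      let Φ : Pj J w →ₐ[R] Localization.Away f := pcLift _ w (fun s => θ (X s))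
        (fun k => by rw [hae]; exact hθJ _ k.2)
        (by
          rw [hae, hθ]
          exact IsLocalization.Away.algebraMap_isUnit f)
      have hΦ : ∀ g, Φ (pc _ w g) = θ g := by
        intro g
        change pcLift _ w _ _ _ (pc _ w g) = _
        rw [pcLift_pc, hae]
      have hinj : Function.Injective Φ := by
        rw [injective_iff_map_eq_zero]
        intro x hx
        obtain ⟨m, g, hg⟩ := pj_surj x
        have h1 : θ g = 0 := by
          rw [← hΦ, ← hg, map_mul, hx, zero_mul]
        rw [hθ, IsLocalization.map_eq_zero_iff (Submonoid.powers f)] at h1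
        obtain ⟨⟨_, k, rfl⟩, hk⟩ := h1
        have h2 : Ideal.Quotient.mk p (φ g) = 0 := by
          rcases mul_eq_zero.mp hk with h3 | h3
          · exact absurd (eq_zero_of_pow_eq_zero h3) hf
          · exact h3
        rw [Ideal.Quotient.eq_zero_iff_mem, hmem] at h2
        have h3 : pc (fun g : J => (g : MvPolynomial (Fin n) R)) w g = 0 :=
          (pj_eq_zero_iff hw g).mpr h2
        rw [h3] at hg
        exact ((pc_unit _ w).pow m).mul_left_eq_zero.mp hg
      have hsurj : Function.Surjective Φ := by
        intro z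
        obtain ⟨⟨y, ⟨_, m, rfl⟩⟩, hz⟩ := IsLocalization.surj (Submonoid.powers f) z
        obtain ⟨a, rfl⟩ := Ideal.Quotient.mk_surjective y
        obtain ⟨g, rfl⟩ := hφ a
        obtain ⟨u, hu⟩ := pc_unit (fun g : J => (g : MvPolynomial (Fin n) R)) w
        refine ⟨pc _ w g * ((u⁻¹ ^ m : (Pj J w)ˣ) : Pj J w), ?_⟩
        have h1 : Φ (pc _ w w) = algebraMap (A ⧸ p) (Localization.Away f) f := by
          rw [hΦ, hθ]
        have h2 : IsUnit (algebraMap (A ⧸ p) (Localization.Away f) f ^ m) :=
          (IsLocalization.Away.algebraMap_isUnit f).pow m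
        apply h2.mul_left_injective
        change Φ (pc _ w g * ((u⁻¹ ^ m : (Pj J w)ˣ) : Pj J w)) *
          algebraMap (A ⧸ p) (Localization.Away f) f ^ m =
          z * algebraMap (A ⧸ p) (Localization.Away f) f ^ m
        have h4 : z * algebraMap (A ⧸ p) (Localization.Away f) f ^ m = θ g := by
          rw [hθ, ← map_pow]
          exact hz
        rw [h4, ← h1, ← map_pow, ← map_mul, mul_assoc, ← hu, ← Units.val_pow_eq_pow_val,
          ← Units.val_mul, inv_pow, inv_mul_cancel, Units.val_one, mul_one, hΦ]
      let e : Pj J w ≃ₐ[R] Localization.Away f := AlgEquiv.ofBijective Φ ⟨hinj, hsurj⟩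
      have hdom := pj_domain (J := J) hw
      let v' : Pj J w := e.symm v
      have hv' : v' ≠ 0 := fun h => hv (e.symm.injective (h.trans (map_zero e.symm).symm))
      obtain ⟨m, c, hc⟩ := pj_surj v'
      have hcJ : c ∉ J := by
        intro h
        rw [(pj_eq_zero_iff hw c).mpr h] at hc
        exact hv' (((pc_unit _ w).pow m).mul_left_eq_zero.mp hc)
      refine pj_glue hP (e := c) (ih _ (hJ c hcJ) (hKJ.trans le_sup_left) w) ?_
      refine glue_alg hP (opnE _ w c) ?_
      -- the two localizations
      have hass : Associated v' (pc (fun g : J => (g : MvPolynomial (Fin n) R)) w c) := by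
        obtain ⟨u, hu⟩ := (pc_unit (fun g : J => (g : MvPolynomial (Fin n) R)) w).pow m
        refine ⟨u, ?_⟩
        rw [hu]
        exact hc
      let T := Localization.Away (pc (fun g : J => (g : MvPolynomial (Fin n) R)) w c)
      have hT : IsLocalization.Away v' T := by
        rw [IsLocalization.Away.iff_of_associated hass]
        infer_instance
      let e1 : Localization.Away v' ≃ₐ[Pj J w] T :=
        IsLocalization.algEquiv (Submonoid.powers v') (Localization.Away v') T
      have e3 : Nonempty (Localization.Away v ≃ₐ[R] Localization.Away v') := by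
        refine ⟨AlgEquiv.ofRingEquiv (f := IsLocalization.ringEquivOfRingEquiv
          (M := Submonoid.powers v) (T := Submonoid.powers v') (Localization.Away v)
          (Localization.Away v') e.symm.toRingEquiv ?_) ?_⟩
        · rw [Submonoid.map_powers]
          rfl
        · intro x
          rw [IsScalarTower.algebraMap_apply R (Localization.Away f) (Localization.Away v),
            IsLocalization.ringEquivOfRingEquiv_eq,
            IsScalarTower.algebraMap_apply R (Pj J w) (Localization.Away v')]
          congr 1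
          exact e.symm.commutes x
      obtain ⟨e3⟩ := e3
      have hft1 : Algebra.FiniteType R (Localization.Away f) :=
        Algebra.FiniteType.trans (S := A ⧸ p) inferInstance inferInstance
      have hft2 : Algebra.FiniteType R (Localization.Away v) :=
        Algebra.FiniteType.trans (S := Localization.Away f) inferInstance inferInstance
      have hft3 : Algebra.FiniteType R (Localization.Away v') :=
        Algebra.FiniteType.trans (S := Pj J w) inferInstance inferInstance
      exact glue_alg hP (e1.restrictScalars R) (glue_alg hP e3 hPv)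
    · by_cases hT : J = ⊤
      · exact absurd (by rw [hT]; trivial) hw
      have h1 : ∃ a b, a * b ∈ J ∧ a ∉ J ∧ b ∉ J := by
        by_contra hcon
        push Not at hcon
        exact hp ⟨hT, fun {a b} hab => by
          by_contra h
          push Not at h
          exact h.2 (hcon a b hab h.1)⟩
      obtain ⟨a, b, hab, ha, hb⟩ := h1
      refine pj_glue hP (e := a) (ih _ (hJ a ha) (hKJ.trans le_sup_left) w) ?_
      exact glue_alg hP (pjDiv J w a b hab) (ih _ (hJ b hb) (hKJ.trans le_sup_left) (w * a))
  have h1 := key (RingHom.ker φ) le_rfl 1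
  refine glue_alg hP ?_ h1
  refine (oneE (fun g : RingHom.ker φ => (g : MvPolynomial (Fin n) R))).symm.trans ?_
  have e := Ideal.quotientKerAlgEquivOfSurjective hφ
  refine AlgEquiv.trans (Ideal.quotientEquivAlgOfEq R ?_) e
  exact span_sub _

end

end Pool.Agent.H876.PL
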