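import Pool.Agent.H876.PL.Imm
import Pool.Graph.R_seed8.Z125.UN.Dim2

/-!
# Perfect fields: smooth irreducible spaces of configurations are sufficient
-/

set_option autoImplicit false

open CategoryTheory AlgebraicGeometry MvPolynomial Pool.Agent.Y116.UV Pool.Agent.Z125.UN
  Pool.Agent.Q193.LT

namespace Pool.Agent.H876.PL

section

variable {R : Type} [CommRing R]

lemma smooth_away {B : Type} [CommRing B] [Algebra R B] (w : B) (h : Algebra.Smooth R B) :
    Algebra.Smooth R (Localization.Away w) := by
  have h1 : Algebra.Smooth B (Localization.Away w) := Algebra.Smooth.of_isLocalization_Away w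
  exact Algebra.Smooth.comp R B (Localization.Away w)

end

section

variable {k : Type} [Field k]

theorem generic_smooth [PerfectField k] :
    Generic k (fun B [CommRing B] [Algebra k B] => Algebra.Smooth k B) where
  gen B := exists_smooth B
  loc B _ _ w h := smooth_away w h
  iso B B' _ _ _ _ e h := by
    obtain ⟨e⟩ := e
    exact Algebra.Smooth.of_equiv e

variable {sep : Prop} {P Q : Sch k → Prop}

/-- Prime fields: no fixed points. -/
theorem perf_prime [PerfectField k] (hk : Frac k) (hP : Glue sep P) (hQ : Hered Q)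
    (h : ConfFam P Q (fun B [CommRing B] [Algebra k B] => Algebra.Smooth k B)
      (![] : Fin 0 → k))
    (h0 : ∀ (B : Type) [CommRing B] [Algebra k B], Subsingleton B → P (aff k B))
    (X : Sch k) (hX : FT sep X) (hQX : Q X) : P X := by
  refine conf_generic hP hQ generic_smooth (presents_frac hk) ?_ h0 X hX hQX
  intro B _ _ _ F hF
  refine ⟨0, ![], ?_, bpt_inj_zero B _, h⟩
  intro x hx
  rcases hF x hx with h1 | h1
  · exact Or.inl h1
  · exact Or.inr (Or.inl h1)

/-- The fixed points. -/
lemma exists_consts (F : Finset k) : ∃ (r : ℕ) (c : Fin r → k),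
    (∀ x ∈ F, x = 0 ∨ x = 1 ∨ ∃ j, c j = x) ∧ Function.Injective c ∧ (∀ j, c j ≠ 0) ∧
      ∀ j, c j ≠ 1 := by
  classical
  let F' := F.filter fun x => x ≠ 0 ∧ x ≠ 1
  refine ⟨F'.card, fun j => ((Finset.equivFin F').symm j).1, fun x hx => ?_, ?_, ?_, ?_⟩
  · by_cases h0 : x = 0
    · exact Or.inl h0
    by_cases h1 : x = 1
    · exact Or.inr (Or.inl h1)
    have h2 : x ∈ F' := Finset.mem_filter.mpr ⟨hx, h0, h1⟩
    refine Or.inr (Or.inr ⟨Finset.equivFin F' ⟨x, h2⟩, ?_⟩)
    simp
  · intro i j hij
    exact (Finset.equivFin F').symm.injective (Subtype.ext hij)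
  · intro j
    exact (Finset.mem_filter.mp ((Finset.equivFin F').symm j).2).2.1
  · intro j
    exact (Finset.mem_filter.mp ((Finset.equivFin F').symm j).2).2.2

/-- Perfect fields: the fixed points have arbitrary distinct coordinates different from `0` and `1`. -/
theorem perf_field [PerfectField k] (hP : Glue sep P) (hQ : Hered Q)
    (h : ∀ (r : ℕ) (c : Fin r → k), Function.Injective c → (∀ j, c j ≠ 0) → (∀ j, c j ≠ 1) →
      ConfFam P Q (fun B [CommRing B] [Algebra k B] => Algebra.Smooth k B) c)
    (h0 : ∀ (B : Type) [CommRing B] [Algebra k B], Subsingleton B → P (aff k B))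
    (X : Sch k) (hX : FT sep X) (hQX : Q X) : P X := by
  refine conf_generic hP hQ generic_smooth presents_univ ?_ h0 X hX hQX
  intro B _ _ _ F _
  obtain ⟨r, c, h1, h2, h3, h4⟩ := exists_consts F
  exact ⟨r, c, h1, bpt_inj B c h2 h3, h r c h2 h3 h4⟩

end

end Pool.Agent.H876.PL
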