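import Pool.Agent.H876.PL.Main

/-!
# Configurations of distinct points

An encoding of a domain can be changed into one in which the points are pairwise different. The ring of
the configurations with the same collinear triples is a localization of the given domain.
-/

set_option autoImplicit false

open CategoryTheory AlgebraicGeometry MvPolynomial Pool.Agent.Y116.UV Pool.Agent.Z125.UN
  Pool.Agent.Q193.LT

namespace Pool.Agent.H876.PL

section

variable {A : Type} [CommRing A]

/-- the last coordinate which is not zero is one -/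
def Norm (u : Fin 3 → A) : Prop := u 2 = 1 ∨ (u 2 = 0 ∧ u 1 = 1) ∨ (u 2 = 0 ∧ u 1 = 0 ∧ u 0 = 1)

lemma norm_frame (j : Fin 4) : Norm (frame j : Fin 3 → A) := by
  fin_cases j <;> simp [Norm, frame]

lemma norm_point (l : Fin 4) (t : A) : Norm (point l t) := by
  fin_cases l <;> simp [Norm, point]

variable {R σ : Type} [CommRing R] [Algebra R A] {r : ℕ} {c : Fin r → R} {l : σ → Fin 4}

lemma norm_pts (p : σ → A) (j : Lab r σ) : Norm (pts c l p j) := by
  rcases j with j | j | i
  · exact norm_frame j
  · exact norm_point (0 : Fin 4) (algebraMap R A (c j))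
  · exact norm_point (l i) (p i)

/-- Different points are linearly independent. -/
lemma norm_eq [Nontrivial A] {u v : Fin 3 → A} (hu : Norm u) (hv : Norm v)
    (h0 : Matrix.det ![u, v, frame 0] = 0) (h1 : Matrix.det ![u, v, frame 1] = 0)
    (h2 : Matrix.det ![u, v, frame 2] = 0) : u = v := by
  rw [Matrix.det_fin_three] at h0 h1 h2
  simp only [frame, Matrix.cons_val, Matrix.cons_val_zero, Matrix.cons_val_one] at h0 h1 h2
  have e0 : u 1 * v 2 - u 2 * v 1 = 0 := by linear_combination h0
  have e1 : u 2 * v 0 - u 0 * v 2 = 0 := by linear_combination h1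
  have e2 : u 0 * v 1 - u 1 * v 0 = 0 := by linear_combination h2
  have key : u 0 = v 0 ∧ u 1 = v 1 ∧ u 2 = v 2 := by
    rcases hu with hu | ⟨hu, hu'⟩ | ⟨hu, hu', hu''⟩ <;>
    rcases hv with hv | ⟨hv, hv'⟩ | ⟨hv, hv', hv''⟩ <;>
    simp only [hu, hv] at e0 e1 e2
    · refine ⟨?_, ?_, ?_⟩
      · linear_combination -e1
      · linear_combination e0
      · rw [hu, hv]
    · rw [hv'] at e0
      exact absurd e0 (by simp)
    · rw [hv''] at e1
      exact absurd e1 (by simp)
    · rw [hu'] at e0
      exact absurd e0 (by simp)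
    · rw [hu', hv'] at e2
      refine ⟨?_, ?_, ?_⟩
      · linear_combination e2
      · rw [hu', hv']
      · rw [hu, hv]
    · rw [hu', hv', hv''] at e2
      exact absurd e2 (by simp)
    · rw [hu''] at e1
      exact absurd e1 (by simp)
    · rw [hu', hu'', hv'] at e2
      exact absurd e2 (by simp)
    · refine ⟨?_, ?_, ?_⟩
      · rw [hu'', hv'']
      · rw [hu', hv']
      · rw [hu, hv]
  funext s
  fin_cases s
  · exact key.1
  · exact key.2.1
  · exact key.2.2

/-- the coordinate of a point of the line number `l` -/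
def crd (l : Fin 4) (u : Fin 3 → A) : A := (![u 0, u 0, u 0, u 1] : Fin 4 → A) l

lemma crd_point (l : Fin 4) (t : A) : crd l (point l t) = t := by
  fin_cases l <;> simp [crd, point]

/-- two points of the frame on the line number `l` -/
def fr2 (l : Fin 4) : Fin 4 × Fin 4 := (![(0, 2), (0, 3), (0, 1), (1, 2)] : Fin 4 → Fin 4 × Fin 4) l

lemma det_fr2_point (l : Fin 4) (t : A) :
    Matrix.det ![point l t, frame (fr2 l).1, frame (fr2 l).2] = 0 := by
  rw [Matrix.det_fin_three]
  fin_cases l <;> simp [point, frame, fr2]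

end

section

variable {R A B : Type} [CommRing R] [CommRing A] [Algebra R A] [CommRing B] [Algebra R B]

/-- If a frame point of the configuration is on the line `l`, this is so over each ring. -/
lemma frame_line [Nontrivial A] (j l : Fin 4) (t : A) (h : (frame j : Fin 3 → A) = point l t) :
    (frame j : Fin 3 → B) = point l (crd l (frame j)) := by
  have h0 := congrFun h 0
  have h1 := congrFun h 1
  have h2 := congrFun h 2
  clear h
  funext s
  fin_cases j <;> fin_cases l <;> fin_cases s <;>
    simp_all [frame, point, crd] <;>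
    first
    | exact absurd (h0.trans h1.symm) (one_ne_zero (α := A))
    | exact absurd (h0.trans h2.symm) (one_ne_zero (α := A))
    | exact absurd (h1.trans h0.symm) (one_ne_zero (α := A))
    | exact absurd (h1.trans h2.symm) (one_ne_zero (α := A))


lemma point_line [Nontrivial A] (m l : Fin 4) (t s : A) (u : B)
    (h : (point m t : Fin 3 → A) = point l s) (hf : ∀ j, (frame j : Fin 3 → A) ≠ point m t)
    (hd : Matrix.det ![point m u, frame (fr2 l).1, frame (fr2 l).2] = 0) :
    (point m u : Fin 3 → B) = point l (crd l (point m u)) := by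
  have h0 := congrFun h 0
  have h1 := congrFun h 1
  have h2 := congrFun h 2
  have hf2 := hf 2
  rw [Matrix.det_fin_three] at hd
  clear h hf
  funext i
  fin_cases m <;> fin_cases l <;> fin_cases i <;>
    simp_all [frame, point, crd, fr2] <;>
    first
    | linear_combination -hd
    | exact absurd (h0.trans h1.symm) (one_ne_zero (α := A))
    | exact absurd (h0.trans h2.symm) (one_ne_zero (α := A))
    | exact absurd (h1.trans h0.symm) (one_ne_zero (α := A))
    | exact absurd (h1.trans h2.symm) (one_ne_zero (α := A))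


end

section

variable {R A : Type} [CommRing R] [CommRing A] [Algebra R A] {r : ℕ}

/-- the points of the frame and the fixed points -/
def bpt (A : Type) [CommRing A] [Algebra R A] (c : Fin r → R) : Fin 4 ⊕ Fin r → Fin 3 → A :=
  Sum.elim frame fun j => point 0 (algebraMap R A (c j))

/-- the labels of the frame and of the fixed points -/
def blab (r : ℕ) (σ : Type) : Fin 4 ⊕ Fin r → Lab r σ := Sum.elim Sum.inl (Sum.inr ∘ Sum.inl)

lemma pts_blab {σ : Type} (c : Fin r → R) (l : σ → Fin 4) (p : σ → A) (b : Fin 4 ⊕ Fin r) :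
    pts c l p (blab r σ b) = bpt A c b := by
  rcases b with j | j <;> rfl

open Classical in
/-- the collinear triples -/
noncomputable def vanish {σ : Type} [Fintype σ] (c : Fin r → R) (l : σ → Fin 4) (a : σ → A) :
    Finset (Lab r σ × Lab r σ × Lab r σ) :=
  Finset.univ.filter fun t => det3 c l a t = 0

lemma mem_vanish {σ : Type} [Fintype σ] {c : Fin r → R} {l : σ → Fin 4} {a : σ → A}
    {t : Lab r σ × Lab r σ × Lab r σ} : t ∈ vanish c l a ↔ det3 c l a t = 0 := by
  classical
  rw [vanish, Finset.mem_filter]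
  exact ⟨fun h => h.2, fun h => ⟨Finset.mem_univ _, h⟩⟩

/-- The points of the encoding can be made pairwise different. -/
theorem Enc.simple [Nontrivial A] {σ : Type} [Fintype σ] {c : Fin r → R} {l : σ → Fin 4}
    {Z : Finset (Lab r σ × Lab r σ × Lab r σ)} {a : σ → A} (h : Enc c l Z a)
    (hc : Function.Injective (bpt A c)) :
    ∃ (σ' : Type) (_ : Fintype σ') (l' : σ' → Fin 4) (a' : σ' → A),
      Enc c l' (vanish c l' a') a' ∧ Function.Injective (pts c l' a') := by
  classical
  let V : Finset (Fin 3 → A) := (Finset.univ.image fun i : σ => point (l i) (a i)) \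
    (Finset.univ.image (bpt A c))
  have hV : ∀ v : {v // v ∈ V}, ∃ i : σ, point (l i) (a i) = v.1 := by
    rintro ⟨v, hv⟩
    rw [Finset.mem_sdiff, Finset.mem_image] at hv
    obtain ⟨⟨i, -, hi⟩, -⟩ := hv
    exact ⟨i, hi⟩
  choose ι hι using hV
  have hVb : ∀ (v : {v // v ∈ V}) (b : Fin 4 ⊕ Fin r), bpt A c b ≠ v.1 := by
    rintro ⟨v, hv⟩ b hb
    rw [Finset.mem_sdiff] at hv
    exact hv.2 (Finset.mem_image.mpr ⟨b, Finset.mem_univ _, hb⟩)
  let l' : {v // v ∈ V} → Fin 4 := fun v => l (ι v)
  let a' : {v // v ∈ V} → A := fun v => a (ι v)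
  have hpt : ∀ v, point (l' v) (a' v) = v.1 := hι
  -- the new labels of the points
  have hρ : ∀ i : σ, ∃ q : Lab r {v // v ∈ V}, pts c l' a' q = point (l i) (a i) ∧
      ∀ hv : point (l i) (a i) ∈ V, q = Sum.inr (Sum.inr ⟨_, hv⟩) := by
    intro i
    by_cases hv : point (l i) (a i) ∈ V
    · exact ⟨Sum.inr (Sum.inr ⟨_, hv⟩), hpt ⟨_, hv⟩, fun _ => rfl⟩
    · have h1 : point (l i) (a i) ∈ Finset.univ.image (bpt A c) := by
        by_contra h2
        exact hv (Finset.mem_sdiff.mpr ⟨Finset.mem_image_of_mem _ (Finset.mem_univ i), h2⟩)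
      obtain ⟨b, -, hb⟩ := Finset.mem_image.mp h1
      refine ⟨blab r _ b, ?_, fun h3 => absurd h3 hv⟩
      rw [pts_blab, hb]
  choose ρ hρ1 hρ2 using hρ
  let L : Lab r σ → Lab r {v // v ∈ V} := Sum.elim Sum.inl (Sum.elim (Sum.inr ∘ Sum.inl) ρ)
  have hL : ∀ (C : Type) [CommRing C] [Algebra R C] (p' : {v // v ∈ V} → C) (p : σ → C),
      (∀ i, pts c l' p' (ρ i) = point (l i) (p i)) → ∀ j, pts c l p j = pts c l' p' (L j) := by
    intro C _ _ p' p hp j
    rcases j with j | j | i
    · rfl
    · rfl
    · exact (hp i).symm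
  have hinj : Function.Injective (pts c l' a') := by
    rintro (j | j | v) (j' | j' | v') hjj
    · exact congrArg (blab r _) (hc (a₁ := Sum.inl j) (a₂ := Sum.inl j') hjj)
    · exact congrArg (blab r _) (hc (a₁ := Sum.inl j) (a₂ := Sum.inr j') hjj)
    · exact absurd (hjj.trans (hpt v')) (hVb v' (Sum.inl j))
    · exact congrArg (blab r _) (hc (a₁ := Sum.inr j) (a₂ := Sum.inl j') hjj)
    · exact congrArg (blab r _) (hc (a₁ := Sum.inr j) (a₂ := Sum.inr j') hjj)
    · exact absurd (hjj.trans (hpt v')) (hVb v' (Sum.inr j))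
    · exact absurd (hjj.symm.trans (hpt v)) (hVb v (Sum.inl j'))
    · exact absurd (hjj.symm.trans (hpt v)) (hVb v (Sum.inr j'))
    · have h1 : v = v' := Subtype.ext ((hpt v).symm.trans (hjj.trans (hpt v')))
      rw [h1]
  refine ⟨{v // v ∈ V}, inferInstance, l', a', ⟨fun t ht => mem_vanish.mp ht, ?_, ?_⟩, hinj⟩
  · intro C _ _ p' hp'
    let p : σ → C := fun i => crd (l i) (pts c l' p' (ρ i))
    -- the point with the label `ρ i` is on the line `l i`
    have hline : ∀ i, Matrix.det ![pts c l' p' (ρ i), frame (fr2 (l i)).1,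
        frame (fr2 (l i)).2] = 0 := by
      intro i
      have h1 := hp' (ρ i, Sum.inl (fr2 (l i)).1, Sum.inl (fr2 (l i)).2) (by
        rw [mem_vanish]
        change Matrix.det ![pts c l' a' (ρ i), frame (fr2 (l i)).1, frame (fr2 (l i)).2] = 0
        rw [hρ1, det_fr2_point])
      exact h1
    have hp : ∀ i, pts c l' p' (ρ i) = point (l i) (p i) := by
      intro i
      have h1 := hρ1 i
      have h2 := hline i
      change pts c l' p' (ρ i) = point (l i) (crd (l i) (pts c l' p' (ρ i)))
      generalize ρ i = q at h1 h2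
      rcases q with j | j | v
      · exact frame_line (A := A) j (l i) (a i) h1
      · refine point_line (A := A) 0 (l i) _ (a i) _ h1 (fun j' hj' => ?_) h2
        have h3 := hc (a₁ := Sum.inl j') (a₂ := Sum.inr j) hj'
        exact absurd h3 (by simp)
      · refine point_line (A := A) (l' v) (l i) (a' v) (a i) _ h1 (fun j' hj' => ?_) h2
        exact hVb v (Sum.inl j') (hj'.trans (hpt v))
    have hdet : ∀ t : Lab r σ × Lab r σ × Lab r σ, det3 c l p t =
        det3 c l' p' (L t.1, L t.2.1, L t.2.2) := by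
      intro t
      unfold det3
      rw [hL C p' p hp, hL C p' p hp, hL C p' p hp]
    have hdeta : ∀ t : Lab r σ × Lab r σ × Lab r σ, det3 c l a t =
        det3 c l' a' (L t.1, L t.2.1, L t.2.2) := by
      intro t
      unfold det3
      rw [hL A a' a hρ1, hL A a' a hρ1, hL A a' a hρ1]
    obtain ⟨f, hf⟩ := h.lift C p fun t ht => by
      rw [hdet]
      exact hp' _ (mem_vanish.mpr (by rw [← hdeta]; exact h.rel t ht))
    refine ⟨f, ?_⟩
    funext v
    have h1 : point (l (ι v)) (a (ι v)) ∈ V := by
      rw [hι v]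
      exact v.2
    have h2 : ρ (ι v) = Sum.inr (Sum.inr v) := by
      rw [hρ2 (ι v) h1]
      congr 2
      exact Subtype.ext (hι v)
    have h3 : f (a (ι v)) = p (ι v) := congrFun hf (ι v)
    change f (a (ι v)) = p' v
    rw [h3]
    change crd (l (ι v)) (pts c l' p' (ρ (ι v))) = p' v
    rw [h2]
    exact crd_point (l' v) (p' v)
  · intro C _ _ f g hfg
    refine h.gen C f g ?_
    funext i
    have h1 : ∀ f : A →ₐ[R] C, f (a i) = crd (l i) (pts c l' (f ∘ a') (ρ i)) := by
      intro f
      have h2 : pts c l' (f ∘ a') (ρ i) = point (l i) (f (a i)) := by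
        funext s
        rw [← map_pts, hρ1, map_point]
      rw [h2, crd_point]
    change f (a i) = g (a i)
    rw [h1 f, h1 g, hfg]

/-- More relations. -/
theorem Enc.enlarge {σ : Type} [Fintype σ] {c : Fin r → R} {l : σ → Fin 4}
    {Z : Finset (Lab r σ × Lab r σ × Lab r σ)} {a : σ → A} (h : Enc c l Z a) :
    Enc c l (vanish c l a) a where
  rel _ ht := mem_vanish.mp ht
  lift C _ _ p hp := h.lift C p fun t ht => hp t (mem_vanish.mpr (h.rel t ht))
  gen := h.gen

/-- The set of triples belongs to configurations of pairwise different points. -/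
def Distinct {σ : Type} (Z : Finset (Lab r σ × Lab r σ × Lab r σ)) : Prop :=
  ∀ i j : Lab r σ, i ≠ j → ∃ k, (i, j, k) ∉ Z

lemma distinct_vanish [Nontrivial A] {σ : Type} [Fintype σ] {c : Fin r → R} {l : σ → Fin 4}
    {a : σ → A} (h : Function.Injective (pts c l a)) : Distinct (vanish c l a) := by
  intro i j hij
  by_contra hcon
  push Not at hcon
  apply hij
  apply h
  have h1 : ∀ k : Fin 4, Matrix.det ![pts c l a i, pts c l a j, frame k] = 0 := fun k =>
    mem_vanish.mp (hcon (Sum.inl k))
  exact norm_eq (norm_pts a i) (norm_pts a j) (h1 0) (h1 1) (h1 2)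

end

end Pool.Agent.H876.PL
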