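import Pool.Agent.H876.PL.Enc
import Pool.Graph.R_seed8.Q193.LT.Prime

/-!
# Every affine scheme is glued from configuration spaces
-/

set_option autoImplicit false

open CategoryTheory AlgebraicGeometry MvPolynomial Pool.Agent.Y116.UV Pool.Agent.Z125.UN
  Pool.Agent.Q193.LT

namespace Pool.Agent.H876.PL

/-- The property `P` is invariant under isomorphisms, and it is true for `X` if it is true for a closed
subscheme of `X` and its complement. -/
structure Glue {R : Type} [CommRing R] (sep : Prop) (P : Sch R → Prop) : Prop where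
  iso : ∀ {X Y : Sch R}, FT sep X → Nonempty (X ≅ Y) → P X → P Y
  total : ∀ {Z X U : Sch R} (i : Z ⟶ X) (j : U ⟶ X), FT sep X → IsTriple i j → P Z → P U → P X

section

variable {R : Type} [CommRing R] {sep : Prop} {P : Sch R → Prop}

lemma glue_alg (hP : Glue sep P) {A B : Type} [CommRing A] [CommRing B] [Algebra R A] [Algebra R B]
    [Algebra.FiniteType R A] (e : A ≃ₐ[R] B) (h : P (aff R A)) : P (aff R B) :=
  hP.iso (ft_aff sep) ⟨(affIso e).symm⟩ h

lemma glue_pc (hP : Glue sep P) {σ κ : Type} [Finite σ] {G : κ → MvPolynomial σ R}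
    {w e : MvPolynomial σ R} (hc : P (aff R (Pc (adj G e) w))) (ho : P (aff R (Pc G (w * e)))) :
    P (aff R (Pc G w)) :=
  hP.total _ _ (ft_aff sep) (triple_away (pc G w e))
    (glue_alg hP (cloE G w e).symm hc) (glue_alg hP (opnE G w e).symm ho)

/-- The ring of a piece depends only on the relations. -/
noncomputable def pcCongr {σ κ κ' : Type} (G : κ → MvPolynomial σ R) (G' : κ' → MvPolynomial σ R)
    (w w' : MvPolynomial σ R) (h1 : ∀ k, G k ∈ Ideal.span (Set.range G'))
    (h2 : ∀ k, G' k ∈ Ideal.span (Set.range G)) (hw : w = w') : Pc G w ≃ₐ[R] Pc G' w' :=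
  pcEquiv (pv G' w') (fun k => by rw [pc_aeval]; exact pc_zero G' w' (h1 k))
    (by rw [pc_aeval, hw]; exact pc_unit G' w')
    (pv G w) (fun k => by rw [pc_aeval]; exact pc_zero G w (h2 k))
    (by rw [pc_aeval, ← hw]; exact pc_unit G w)
    (fun s => by rw [pcLift_pv]) (fun s => by rw [pcLift_pv])

/-- the relations `d t = 0`, `t ∈ Z` -/
def rels {σ τ : Type} (d : τ → MvPolynomial σ R) (Z : Finset τ) : {t // t ∈ Z} → MvPolynomial σ R :=
  fun t => d t.1

/-- A locally closed subscheme of the affine space is glued from the strata given by the vanishing and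
nonvanishing of the polynomials `d t`. -/
theorem glue_strata (hP : Glue sep P) {σ τ : Type} [Finite σ] [Fintype τ] [DecidableEq τ]
    (d : τ → MvPolynomial σ R)
    (h : ∀ Z : Finset τ, P (aff R (Pc (rels d Z) (∏ t ∈ Zᶜ, d t)))) (Z : Finset τ) :
    P (aff R (Pc (rels d Z) 1)) := by
  have key : ∀ (n : ℕ) (Z W : Finset τ), Disjoint Z W → (Z ∪ W)ᶜ.card = n →
      P (aff R (Pc (rels d Z) (∏ t ∈ W, d t))) := by
    intro n
    induction n with
    | zero =>
      intro Z W hZW hn
      rw [Finset.card_eq_zero, Finset.compl_eq_empty_iff] at hn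
      have hW : W = Zᶜ := by
        ext t
        rw [Finset.mem_compl]
        constructor
        · intro ht ht'
          exact (Finset.disjoint_left.mp hZW) ht' ht
        · intro ht
          have h1 : t ∈ Z ∪ W := by rw [hn]; exact Finset.mem_univ t
          rcases Finset.mem_union.mp h1 with h2 | h2
          · exact absurd h2 ht
          · exact h2
      rw [hW]
      exact h Z
    | succ n ih =>
      intro Z W hZW hn
      have hne : (Z ∪ W)ᶜ.Nonempty := by
        rw [← Finset.card_pos, hn]
        exact Nat.succ_pos n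
      obtain ⟨t, ht⟩ := hne
      have ht' : t ∉ Z ∧ t ∉ W := by
        rw [Finset.mem_compl, Finset.mem_union, not_or] at ht
        exact ht
      refine glue_pc hP (e := d t) ?_ ?_
      · have h1 : Disjoint (insert t Z) W := by
          rw [Finset.disjoint_insert_left]
          exact ⟨ht'.2, hZW⟩
        have h2 : (insert t Z ∪ W)ᶜ.card = n := by
          rw [Finset.insert_union, Finset.compl_insert, Finset.card_erase_of_mem ht, hn]
          rfl
        refine glue_alg hP (pcCongr _ _ _ _ ?_ ?_ rfl) (ih (insert t Z) W h1 h2)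
        · rintro ⟨s, hs⟩
          rcases Finset.mem_insert.mp hs with rfl | hs'
          · exact Ideal.subset_span ⟨none, rfl⟩
          · exact Ideal.subset_span ⟨some ⟨s, hs'⟩, rfl⟩
        · rintro (_ | ⟨s, hs⟩)
          · exact Ideal.subset_span ⟨⟨t, Finset.mem_insert_self _ _⟩, rfl⟩
          · exact Ideal.subset_span ⟨⟨s, Finset.mem_insert_of_mem hs⟩, rfl⟩
      · have h1 : Disjoint Z (insert t W) := by
          rw [Finset.disjoint_insert_right]
          exact ⟨ht'.1, hZW⟩
        have h2 : (Z ∪ insert t W)ᶜ.card = n := by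
          rw [Finset.union_insert, Finset.compl_insert, Finset.card_erase_of_mem ht, hn]
          rfl
        have h3 : ∏ s ∈ insert t W, d s = (∏ s ∈ W, d s) * d t := by
          rw [Finset.prod_insert ht'.2, mul_comm]
        rw [← h3]
        exact ih Z (insert t W) h1 h2
  have h1 := key _ Z ∅ (Finset.disjoint_empty_right Z) rfl
  rw [Finset.prod_empty] at h1
  exact h1

/-- An encoded ring is isomorphic to the ring of the configurations with collinear triples `Z`. -/
noncomputable def encEquiv {A σ : Type} [CommRing A] [Algebra R A] {r : ℕ} {c : Fin r → R}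
    {l : σ → Fin 4} {Z : Finset (Lab r σ × Lab r σ × Lab r σ)} {a : σ → A} (h : Enc c l Z a) :
    Pc (rels (det3 c l (X : σ → MvPolynomial σ R)) Z) 1 ≃ₐ[R] A := by
  have h1 : ∀ t ∈ Z, det3 c l (pv (rels (det3 c l (X : σ → MvPolynomial σ R)) Z) 1) t = 0 := by
    intro t ht
    have h2 := pc_rel (rels (det3 c l (X : σ → MvPolynomial σ R)) Z) 1 ⟨t, ht⟩
    change pc _ _ (det3 c l X t) = 0 at h2
    rw [map_det3] at h2
    exact h2
  let g := (h.lift _ _ h1).choose
  have hg : g ∘ a = pv (rels (det3 c l (X : σ → MvPolynomial σ R)) Z) 1 :=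
    (h.lift _ _ h1).choose_spec
  have h3 : ∀ k, aeval a (rels (det3 c l (X : σ → MvPolynomial σ R)) Z k) = 0 := by
    rintro ⟨t, ht⟩
    change aeval a (det3 c l X t) = 0
    rw [map_det3]
    have h4 : (aeval a : MvPolynomial σ R →ₐ[R] A) ∘ X = a := by
      funext i
      exact aeval_X a i
    rw [h4]
    exact h.rel t ht
  have h5 : IsUnit (aeval a (1 : MvPolynomial σ R)) := by
    rw [map_one]
    exact isUnit_one
  refine AlgEquiv.ofAlgHom (pcLift _ _ a h3 h5) g ?_ ?_
  · apply h.gen
    funext i
    change pcLift _ _ a h3 h5 ((g ∘ a) i) = a i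
    rw [hg, pcLift_pv]
  · apply pc_ext
    intro s
    change g (pcLift _ _ a h3 h5 (pv _ _ s)) = pv _ _ s
    rw [pcLift_pv]
    exact congrFun hg s

end

end Pool.Agent.H876.PL
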