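import Pool.Agent.H876.PL.Gen
import Pool.Agent.H876.PL.Noeth

/-!
# The universality theorem

A property of schemes of finite type which can be glued from closed-open decompositions is true for all
schemes of dimension at most `n` if it is true for the smooth irreducible spaces of configurations of
distinct points of dimension at most `n`.
-/

set_option autoImplicit false

open CategoryTheory AlgebraicGeometry MvPolynomial Pool.Agent.Y116.UV Pool.Agent.Z125.UN
  Pool.Agent.Q193.LT

namespace Pool.Agent.H876.PL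

/-- A property of `R`-algebras which is invariant under isomorphisms and localizations, and which every
domain of finite type has after a localization. -/
structure Generic (R : Type) [CommRing R] (Sm : ∀ (B : Type) [CommRing B] [Algebra R B], Prop) :
    Prop where
  gen : ∀ (B : Type) [CommRing B] [IsDomain B] [Algebra R B] [Algebra.FiniteType R B],
    ∃ w : B, w ≠ 0 ∧ Sm (Localization.Away w)
  loc : ∀ (B : Type) [CommRing B] [Algebra R B] (w : B), Sm B → Sm (Localization.Away w)
  iso : ∀ (B B' : Type) [CommRing B] [Algebra R B] [CommRing B'] [Algebra R B'],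
    Nonempty (B ≃ₐ[R] B') → Sm B → Sm B'

section

variable {R : Type} [CommRing R]

lemma hered_alg {Q : Sch R → Prop} (hQ : Hered Q) {A B : Type} [CommRing A] [CommRing B]
    [Algebra R A] [Algebra R B] (e : A ≃ₐ[R] B) (h : Q (aff R A)) : Q (aff R B) :=
  hQ.iso ⟨(affIso e).symm⟩ h

lemma hered_away {Q : Sch R → Prop} (hQ : Hered Q) {A : Type} [CommRing A] [Algebra R A] (w : A)
    (h : Q (aff R A)) : Q (aff R (Localization.Away w)) :=
  hQ.opened _ (triple_away (R := R) w).opened h

lemma hered_quot {Q : Sch R → Prop} (hQ : Hered Q) {A : Type} [CommRing A] [Algebra R A]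
    (I : Ideal A) (h : Q (aff R A)) : Q (aff R (A ⧸ I)) :=
  hQ.closed (affMap (Ideal.Quotient.mkₐ R I)) (closed_affMap _ (Ideal.Quotient.mkₐ_surjective R I))
    h

lemma bpt_inj_zero (A : Type) [CommRing A] [Algebra R A] [Nontrivial A] (c : Fin 0 → R) :
    Function.Injective (bpt A c) := by
  rintro (j | j) (j' | j') h
  · have h0 := congrFun h 0
    have h1 := congrFun h 1
    have h2 := congrFun h 2
    clear h
    fin_cases j <;> fin_cases j' <;> simp_all [bpt, frame]
  · exact j'.elim0
  · exact j.elim0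
  · exact j.elim0

lemma bpt_inj {k : Type} [Field k] (A : Type) [CommRing A] [Algebra k A] [Nontrivial A] {r : ℕ}
    (c : Fin r → k) (hc : Function.Injective c) (h0 : ∀ j, c j ≠ 0) :
    Function.Injective (bpt A c) := by
  have hinj := FaithfulSMul.algebraMap_injective k A
  have hfr : ∀ (j : Fin 4) (j' : Fin r), (frame j : Fin 3 → A) ≠ point 0 (algebraMap k A (c j')) := by
    intro j j' h
    have hj0 : algebraMap k A (c j') ≠ 0 := fun h3 =>
      h0 j' (hinj (h3.trans (map_zero _).symm))
    generalize algebraMap k A (c j') = t at hj0 h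
    have h0 := congrFun h 0
    have h1 := congrFun h 1
    have h2 := congrFun h 2
    clear h
    fin_cases j
    · exact zero_ne_one h2
    · exact one_ne_zero h1
    · exact hj0 h0.symm
    · exact one_ne_zero h1
  rintro (j | j) (j' | j') h
  · have h0 := congrFun h 0
    have h1 := congrFun h 1
    have h2 := congrFun h 2
    clear h
    fin_cases j <;> fin_cases j' <;> simp_all [bpt, frame]
  · exact absurd h (hfr j j')
  · exact absurd h.symm (hfr j' j)
  · have h1 : algebraMap k A (c j) = algebraMap k A (c j') := by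
      have h2 := congrArg (crd 0) h
      change crd 0 (point 0 (algebraMap k A (c j))) = crd 0 (point 0 (algebraMap k A (c j'))) at h2
      rw [crd_point, crd_point] at h2
      exact h2
    rw [hc (hinj h1)]

/-- A localization of a localization is a localization. -/
lemma loc_loc {B A' : Type} [CommRing B] [IsDomain B] [Algebra R B] [CommRing A'] [Algebra R A']
    (w₁ : B) (hw₁ : w₁ ≠ 0) (e : A' ≃ₐ[R] Localization.Away w₁) (w₂ : A') (hw₂ : w₂ ≠ 0) :
    ∃ w : B, w ≠ 0 ∧ Nonempty (Localization.Away w₂ ≃ₐ[R] Localization.Away w) := by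
  let B₁ := Localization.Away w₁
  let T' := Localization.Away w₂
  have hdom₁ : IsDomain B₁ :=
    IsLocalization.isDomain_localization (powers_le_nonZeroDivisors_of_noZeroDivisors hw₁)
  let y : B₁ := e w₂
  have hy : y ≠ 0 := fun h => hw₂ (e.injective (h.trans (map_zero e).symm))
  obtain ⟨⟨z, ⟨_, m, rfl⟩⟩, hz⟩ := IsLocalization.surj (Submonoid.powers w₁) y
  have hass : Associated (algebraMap B B₁ z) y := by
    have hu : IsUnit (algebraMap B B₁ (w₁ ^ m)) := by
      rw [map_pow]
      exact (IsLocalization.Away.algebraMap_isUnit w₁).pow m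
    obtain ⟨u, hu⟩ := hu
    refine Associated.symm ⟨u, ?_⟩
    rw [hu]
    exact hz
  have hzne : z ≠ 0 := by
    intro h
    rw [h, map_zero] at hass
    exact hy ((associated_zero_iff_eq_zero y).mp hass.symm)
  refine ⟨w₁ * z, mul_ne_zero hw₁ hzne, ?_⟩
  let T := Localization.Away y
  have hloc : IsLocalization.Away (w₁ * z) T := IsLocalization.Away.mul_of_associated (S := B₁) w₁ z y hass
  let e1 : Localization.Away (w₁ * z) ≃ₐ[B] T :=
    IsLocalization.algEquiv (Submonoid.powers (w₁ * z)) (Localization.Away (w₁ * z)) T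
  let e2 : T ≃ₐ[R] Localization.Away (w₁ * z) := (e1.restrictScalars R).symm
  -- `T'` and `T`
  have e3 : Nonempty (T' ≃ₐ[R] T) := by
    refine ⟨AlgEquiv.ofRingEquiv (f := IsLocalization.ringEquivOfRingEquiv (M := Submonoid.powers w₂)
      (T := Submonoid.powers y) T' T e.toRingEquiv ?_) ?_⟩
    · rw [Submonoid.map_powers]
      rfl
    · intro x
      rw [IsScalarTower.algebraMap_apply R A' T', IsLocalization.ringEquivOfRingEquiv_eq,
        IsScalarTower.algebraMap_apply R B₁ T]
      congr 1
      exact e.commutes x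
  obtain ⟨e3⟩ := e3
  exact ⟨e3.trans e2⟩

variable {sep : Prop} {P Q : Sch R → Prop}

/-- the family of the configuration spaces with given properties -/
def ConfFam (P Q : Sch R → Prop) (Sm : ∀ (B : Type) [CommRing B] [Algebra R B], Prop) {r : ℕ}
    (c : Fin r → R) : Prop :=
  ∀ (N : ℕ) (l : Fin N → Fin 4) (Z : Finset (Lab r (Fin N) × Lab r (Fin N) × Lab r (Fin N))),
    Distinct Z → IsDomain (Conf c l Z) → Sm (Conf c l Z) → Q (confS c l Z) → P (confS c l Z)

/-- **Birational universality**: every domain of finite type has a localization which is the ring of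
functions on a space of configurations. -/
theorem exists_conf {Sm : ∀ (B : Type) [CommRing B] [Algebra R B], Prop} (hSm : Generic R Sm)
    {S : Set R} (hS : Presents S) (C : ∀ (r : ℕ), (Fin r → R) → Prop)
    (hc : ∀ (B : Type) [CommRing B] [IsDomain B] [Algebra R B] (F : Finset R), (∀ x ∈ F, x ∈ S) →
      ∃ (r : ℕ) (c : Fin r → R), (∀ x ∈ F, x = 0 ∨ x = 1 ∨ ∃ j, c j = x) ∧
        Function.Injective (bpt B c) ∧ C r c)
    (B : Type) [CommRing B] [IsDomain B] [Algebra R B] [Algebra.FiniteType R B] :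
    ∃ (w : B) (r : ℕ) (c : Fin r → R) (N : ℕ) (l : Fin N → Fin 4)
      (Z : Finset (Lab r (Fin N) × Lab r (Fin N) × Lab r (Fin N))),
      w ≠ 0 ∧ C r c ∧ Distinct Z ∧ IsDomain (Conf c l Z) ∧ Sm (Conf c l Z) ∧
        Nonempty (Localization.Away w ≃ₐ[R] Conf c l Z) := by
  classical
  obtain ⟨w₁, hw₁, hSm₁⟩ := hSm.gen B
  let B₁ := Localization.Away w₁
  have hdom₁ : IsDomain B₁ :=
    IsLocalization.isDomain_localization (powers_le_nonZeroDivisors_of_noZeroDivisors hw₁)
  have hft₁ : Algebra.FiniteType R B₁ := Algebra.FiniteType.trans (S := B) inferInstance inferInstance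
  obtain ⟨n, φ, G, hs, hK, hG⟩ := hS B₁
  -- the ring with the presentation
  let A' := MvPolynomial (Fin n) R ⧸ Ideal.span (G : Set (MvPolynomial (Fin n) R))
  have e : Nonempty (A' ≃ₐ[R] B₁) := by
    change Nonempty ((MvPolynomial (Fin n) R ⧸ Ideal.span (G : Set (MvPolynomial (Fin n) R))) ≃ₐ[R] B₁)
    rw [← hK]
    exact ⟨Ideal.quotientKerAlgEquivOfSurjective hs⟩
  obtain ⟨e⟩ := e
  have hdom' : IsDomain A' := e.toMulEquiv.isDomain B₁
  have hSm' : Sm A' := hSm.iso B₁ A' ⟨e.symm⟩ hSm₁
  let F : Finset R := G.biUnion fun g => g.support.image fun m => coeff m g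
  obtain ⟨r, c, hF, hinj, hC⟩ := hc A' F (by
    intro x hx
    obtain ⟨g, hg, hx⟩ := Finset.mem_biUnion.mp hx
    obtain ⟨m, -, rfl⟩ := Finset.mem_image.mp hx
    exact hG g hg m)
  have h1 : Good c (∅ : Set (Fin 4 × A')) := good_of_mem c G (by
    intro g hg m hm
    have h2 : coeff m g ∈ F :=
      Finset.mem_biUnion.mpr ⟨g, hg, Finset.mem_image_of_mem _ hm⟩
    rcases hF _ h2 with h3 | h3 | ⟨j, h3⟩
    · rw [h3, map_zero]
      exact Subring.zero_mem _
    · rw [h3, map_one]
      exact Subring.one_mem _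
    · rw [← h3]
      exact constr_const j)
  obtain ⟨σ, _, _, l, Z, a, hE, -⟩ := h1
  obtain ⟨σ', _, l', a', hE', hinj'⟩ := hE.simple hinj
  let f' := Fintype.equivFin σ'
  have hE2 := (hE'.rename f').enlarge
  have hinj2 : Function.Injective (pts c (l' ∘ f'.symm) (a' ∘ f'.symm)) := by
    intro i j hij
    have h2 : ∀ i : Lab r (Fin (Fintype.card σ')), pts c (l' ∘ f'.symm) (a' ∘ f'.symm) i =
        pts c l' a' (labE r f'.symm i) := by
      intro i
      rcases i with i | i | i <;> rfl
    rw [h2, h2] at hij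
    have h3 := hinj' hij
    have h4 : Function.Injective (labE r f'.symm) := by
      unfold labE
      exact Function.Injective.sumMap Function.injective_id
        (Function.Injective.sumMap Function.injective_id f'.symm.injective)
    exact h4 h3
  obtain ⟨g⟩ := gen_equiv hE2
  let w₂ : A' := ∏ t ∈ (vanish c (l' ∘ f'.symm) (a' ∘ f'.symm))ᶜ,
    det3 c (l' ∘ f'.symm) (a' ∘ f'.symm) t
  have hw₂ : w₂ ≠ 0 := by
    rw [Finset.prod_ne_zero_iff]
    intro t ht h3
    exact (Finset.mem_compl.mp ht) (mem_vanish.mpr h3)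
  let T' := Localization.Away w₂
  have hdomT : IsDomain T' :=
    IsLocalization.isDomain_localization (powers_le_nonZeroDivisors_of_noZeroDivisors hw₂)
  obtain ⟨w, hw, ⟨e4⟩⟩ := loc_loc w₁ hw₁ e w₂ hw₂
  exact ⟨w, r, c, _, _, _, hw, hC, distinct_vanish hinj2, g.symm.toMulEquiv.isDomain T',
    hSm.iso T' _ ⟨g⟩ (hSm.loc A' w₂ hSm'), ⟨e4.symm.trans g⟩⟩

theorem conf_generic [IsNoetherianRing R] (hP : Glue sep P) (hQ : Hered Q)
    {Sm : ∀ (B : Type) [CommRing B] [Algebra R B], Prop} (hSm : Generic R Sm)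
    {S : Set R} (hS : Presents S)
    (hc : ∀ (B : Type) [CommRing B] [IsDomain B] [Algebra R B] (F : Finset R), (∀ x ∈ F, x ∈ S) →
      ∃ (r : ℕ) (c : Fin r → R), (∀ x ∈ F, x = 0 ∨ x = 1 ∨ ∃ j, c j = x) ∧
        Function.Injective (bpt B c) ∧ ConfFam P Q Sm c)
    (h0 : ∀ (B : Type) [CommRing B] [Algebra R B], Subsingleton B → P (aff R B))
    (X : Sch R) (hX : FT sep X) (hQX : Q X) : P X := by
  classical
  refine of_affine' (P := fun X => Q X → P X) (sep := sep) (glue_imp hP hQ).iso
    (glue_imp hP hQ).total ?_ X hX hQX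
  intro A _ _ _ hQA
  refine glue_noeth hP h0 fun p f hp hf => ?_
  let B := A ⧸ p
  have hQB : Q (aff R B) := hered_quot hQ p hQA
  let B₀ := Localization.Away f
  have hdom₀ : IsDomain B₀ :=
    IsLocalization.isDomain_localization (powers_le_nonZeroDivisors_of_noZeroDivisors hf)
  have hQB₀ : Q (aff R B₀) := hered_away hQ f hQB
  have hft₀ : Algebra.FiniteType R B₀ := Algebra.FiniteType.trans (S := B) inferInstance inferInstance
  obtain ⟨w, r, c, N, l, Z, hw, hfam, h1, h2, h3, ⟨e⟩⟩ :=
    exists_conf hSm hS (fun r c => ConfFam P Q Sm c) hc B₀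
  exact ⟨w, hw, glue_alg hP e.symm (hfam N l Z h1 h2 h3 (hered_alg hQ e (hered_away hQ w hQB₀)))⟩

end

end Pool.Agent.H876.PL
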